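import Pool.Agent.LB.Defs
import Pool.Agent.PP5LB.Fin
import Pool.Agent.PP5LB.Cel

set_option autoImplicit false

/-!
# LB5, section B: the interface statements `StCel`, `StB1`, `StB2`
-/

namespace Pool.Agent.LB

open Finset Pool.Agent.PP5L

theorem xs_eq : (xs : Fin 10 → ℤ) = (![1, 1, -1, 1, 0, 0, 0, -1, -2, 0] : Fin 10 → ℤ) := rfl

theorem Fm_XA {h w r : ℕ} {c x : V10} (hx : x ∈ Fm h w c r) :
    x ∈ PP5LB.XA (PP5LB.Ah h (![1, 1, -1, 1, 0, 0, 0, -1, -2, 0] : Fin 10 → ℤ)) r := by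
  have := (PP5LB.mem_XC.mp hx).1
  exact this

theorem stCel : StCel := by
  obtain ⟨h0, h01, hC⟩ := PP5LB.Cel
  refine ⟨h0, ?_⟩
  intro h w r c x hh hr hx
  have h1 := hC h r x hh hr (Fm_XA hx)
  obtain ⟨ha, hb, hc', hd, -⟩ := h1
  have hR : (0 : ℝ) < (h * r : ℝ) := by
    have h2 : 1 ≤ h := le_trans h01 hh
    have h3 : (1 : ℝ) ≤ h := by exact_mod_cast h2
    have h4 : (1 : ℝ) ≤ r := by exact_mod_cast hr
    positivity
  refine ⟨fun j => ?_, ?_, ?_, ?_⟩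
  · have h2 := ha j
    have h3 : (0 : ℝ) ≤ r := Nat.cast_nonneg r
    have h4 : ((xs j : ℤ) : ℝ) = ((PP5LB.xc j : ℤ) : ℝ) := rfl
    rw [h4]
    linarith
  · have : (0 : ℝ) < (h * r : ℝ) ^ 4 := by positivity
    linarith
  · have h3 : (0 : ℝ) < ((PP5LB.dV x : ℤ) : ℝ) := by
      have : (0 : ℝ) < (h * r : ℝ) ^ 2 := by positivity
      linarith
    exact_mod_cast h3
  · intro h0'
    have : (0 : ℝ) < (h * r : ℝ) ^ 3 := by positivity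
    have h3 : (0 : ℝ) < ((PP5LB.EE x : ℤ) : ℝ) := by linarith
    rw [h0'] at h3
    simp at h3

theorem stB1 : StB1 := by
  obtain ⟨h0, h01, hN⟩ := PP5LB.den_Nz PP5LB.good_xs
  refine ⟨h0, ?_⟩
  intro w c hc h hh
  obtain ⟨κ, hκ, r0, hr⟩ := PP5LB.lbd (PP5LB.Ah h xs) (hN h 1 hh le_rfl).1 (PP5LB.Wf w)
  exact ⟨κ, hκ, r0, fun r hr' => hr r hr' _ (PP5LB.res_mem hc)⟩

theorem stB2 : StB2 := by
  classical
  obtain ⟨h0, h01, hR⟩ := PP5LB.removal PP5LB.good_xs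
  refine ⟨49, h0, ?_⟩
  intro w c hw hc h hh
  obtain ⟨r0, hr0⟩ := hR h hh w hw
  refine ⟨r0, fun r hr => ?_⟩
  have h1 := hr0 r hr c hc
  refine le_trans (Nat.cast_le.mpr (Finset.card_le_card ?_)) h1
  intro x hx
  rw [Finset.mem_filter] at hx ⊢
  refine ⟨hx.1, fun hg => hx.2 ⟨hg.rk, hg.cp, hg.nV, hg.sD⟩⟩

end Pool.Agent.LB
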