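import Pool.Agent.PP5LR.Std

/-! Section D of LB5, under the name used by the assembly. -/

theorem Pool.Agent.LB.stD : Pool.Agent.LB.StD := Pool.Agent.PP5LR.stD
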