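import Pool.Agent.PP5S.DPh
import Pool.Agent.PP5Q.Defs
import Pool.Agent.PP5.DL
import Pool.Agent.PP5LB.Defs

/-!
# LB5: a lower bound for the `Z/5`-moment (MP_0f260b_nt): definitions and interface statements (v3)

`R = h r`, `y = R ^ (5/2)`, `y ^ 4 = R ^ 10`.  `Fm h w c r = PP5LB.XC (Ah h xs) r (Wf w) (red (Wf w) c)` = the family of
the `x` (helper24), `xs` the centre of the cell, `Res w c` the local class (everything inert at `p ≤ w`).  Everything is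
compared with `(Fm h w c r).card`.  Order of the constants: absolute, then `w`, then `h` (cell), `κ, δ, η` are absolute.
-/

set_option autoImplicit false

namespace Pool.Agent.LB

open Matrix Finset Pool.Agent.PP5B

abbrev V10 : Type := Fin 10 → ℤ

/-- the centre of the cell: `FF = 0`, `D = -24`, `dV = 4`, `dW = -4`, `EE = 3` -/
def xs : V10 := ![1, 1, -1, 1, 0, 0, 0, -1, -2, 0]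

/-- the direction of the zeros: null vector of `L_xs`, `Df = -11` -/
def ps : PP5.Sp := ![5, 6, 7, -4, -3, -1, 1, -4, 7, 1, -5, 10]

/-- the family (`R = h r`) -/
noncomputable def Fm (h w : ℕ) (c : V10) (r : ℕ) : Finset V10 :=
  PP5LB.XC (PP5LB.Ah h xs) r (PP5LB.Wf w) (PP5LB.red (PP5LB.Wf w) c)

/-- `x` is good (range `r ^ (1/100)` for `p ^ 2 ∤ D`) -/
structure Gx (r : ℕ) (x : V10) : Prop where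
  rk : ∀ p : ℕ, p.Prime → ∃ i j, ¬ (p : ℤ) ∣ (PP5L.SS x).adjugate i j
  cp : ∀ p : ℕ, p.Prime → ¬ ((p : ℤ) ∣ PP5LB.dV x ∧ (p : ℤ) ∣ PP5LB.DD x)
  nV : ∀ p : ℕ, p.Prime → ¬ ((p : ℤ) ∣ x 0 ∧ (p : ℤ) ∣ x 2 ∧ (p : ℤ) ∣ x 4 + x 5)
  sD : ∀ p : ℕ, p.Prime → (p : ℝ) ≤ (r : ℝ) ^ (1 / 100 : ℝ) → ¬ (p : ℤ) ^ 2 ∣ PP5LB.DD x

/-- no short vector in `L_x` -/
def Lm (R δ : ℝ) (x : V10) : Prop := ∀ P : PP5.Sp, PP5.InE P x → P ≠ 0 → ∃ a, R ^ (1 - δ) ≤ |(P a : ℝ)|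

/-- improper at `p`: `f_V = 0` modulo `p` -/
def Imp (p : ℕ) (P : PP5.Sp) : Prop :=
  (p : ℤ) ∣ PP5.Nf P ∧ (p : ℤ) ∣ PP5.Bf P ∧ (p : ℤ) ∣ P 10 ^ 2 - P 9 * P 11

/-- primitive -/
def Prs (P : PP5.Sp) : Prop := ∀ l : ℕ, l.Prime → ¬ ∀ i : Fin 12, (l : ℤ) ∣ P i

open Classical in
/-- the seeds: `w`-rough `n` in `(N/2, N]`, `(n, D) = 1`, square roots of `D` modulo `n` -/
noncomputable def Sd (w : ℕ) (D : ℤ) (N : ℕ) : Finset (ℕ × ℕ) :=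
  ((Ioc (N / 2) N) ×ˢ (range N)).filter (fun p => p.2 < p.1 ∧ Int.gcd D p.1 = 1 ∧
    (∀ q : ℕ, q.Prime → q ∣ p.1 → w < q) ∧ (p.1 : ℤ) ∣ (p.2 : ℤ) ^ 2 - D)

/-- the zero `P` of `L_x`, `|P| ≤ t R^(5/2)` -/
structure Zr (R t : ℝ) (x : V10) (P : PP5.Sp) : Prop where
  inE : PP5.InE P x
  qd : PP5.Qd P
  pr : Prs P
  le : ∀ a, |(P a : ℝ)| ≤ t * R ^ (5 / 2 : ℝ)

/-- condition (c1) of `PP5S.CC` -/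
structure CC1 (y δ A c3 : ℝ) (Θ : V10 → ℝ) : Prop where
  nn : ∀ x, 0 ≤ Θ x
  c1 : ∀ x : V10, PP5C.DX x ≠ 0 → (PP5C.D2 x : ℝ) ≤ y ^ A →
      ∀ c : Matrix (Fin 4) (Fin 4) ℤ,
      (∀ l : ℕ, l.Prime → ¬ l ∣ PP5C.D2 x → ¬ (l : ℤ) ∣ (c + c.transpose).det) →
      (∀ n : ℕ, PP5C.Cn n c → PP5C.An n x) →
      ∀ (A0 : Fin 4 → ℤ) (H : ℕ), y ^ δ ≤ (H : ℝ) →
      ∀ (om : (Fin 4 → ℤ) → ℕ → ℝ) (ix : (Fin 4 → ℤ) → ℕ → ℕ) (S : Finset (Fin 4 → ℤ)),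
      (∀ m ∈ S, m ∈ PP5C.bx A0 (fun _ => H) ∧ PP5C.Pm m ∧ PP5C.qf c m ≠ 0 ∧
        ((PP5C.qf c m).natAbs : ℝ) ≤ y ^ A ∧
        PP5C.Wgt (PP5C.D2 x) (PP5C.qf c m).natAbs (PP5C.psx x) (om m) (ix m) ∧
        (PP5C.sx (PP5C.D2 x) (PP5C.qf c m).natAbs (ix m) : ℝ) ≤ y ^ c3) →
      ∑ m ∈ S, ∏ l ∈ (PP5C.qf c m).natAbs.primeFactors, om m l ≤ (H : ℝ) ^ 4 * Θ x

/-- data for the zero count (`L_x` or one of its neighbours) -/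
structure GZ (C0 R δ T : ℝ) (x : V10) (G : Matrix (Fin 4) (Fin 4) ℤ) (l : Fin 4 → ℝ) : Prop where
  xg : PP5S.XG x G
  gh : PP5Q.GH C0 T G l
  Tlo : R ≤ C0 * T
  Tup : T ≤ C0 * R
  neg : PP5LB.DD x < 0
  Dlo : R ^ 4 ≤ C0 * |((PP5LB.DD x : ℤ) : ℝ)|
  det : G.det = PP5LB.DD x
  prod : ∏ i, l i ≤ C0 * R ^ 4
  l0 : R ^ (1 - δ) ≤ l 0
  adj : ∀ p : ℕ, p.Prime → ∃ i j, ¬ (p : ℤ) ∣ G.adjugate i j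

/-- `N_x(t)` -/
noncomputable def Nx (R t : ℝ) (x : V10) : ℕ := Set.ncard {P : PP5.Sp | Zr R t x P}

/-- the matrix with a hyperbolic plane -/
def Hyp (A B C : ℤ) : Matrix (Fin 4) (Fin 4) ℤ := !![0, 1, 0, 0; 1, 0, 0, 0; 0, 0, 2 * A, B; 0, 0, B, 2 * C]

/-- the splitting of the lattice `L_x` -/
def Spl (x : V10) : Prop := ∀ (b : Module.Basis (Fin 4) ℤ (PP5L.Lx x)) (G : Matrix (Fin 4) (Fin 4) ℤ),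
  (∀ i k j, PP5L.Bd (b i : Fin 16 → ℤ) (b k : Fin 16 → ℤ) j = G i k * x j) →
  G.det = PP5LB.DD x ∧ ∀ N : ℤ, N ≠ 0 → ∃ (U : Matrix (Fin 4) (Fin 4) ℤ) (A B C : ℤ), U.det = 1 ∧
    Uᵀ * G * U = Hyp A B C ∧ B ^ 2 - 4 * A * C = PP5LB.DD x ∧ IsCoprime A N

/-! ## The interface statements

`κ` = range of `k` (absolute, small), `δ = δ(κ)` exponent of the first minimum and of the improper primes,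
`η` power saving. -/

/-- 4(b) (helper99) -/
def StLoc : Prop := ∀ w : ℕ, ∃ c : V10, PP5LB.Res w c

/-- the cell (helper24, module Cel) -/
def StCel : Prop := ∃ h0 : ℕ, ∀ (h w r : ℕ) (c x : V10), h0 ≤ h → 1 ≤ r → x ∈ Fm h w c r →
  (∀ j, |(x j : ℝ) - (h * r : ℝ) * xs j| ≤ 100 * r) ∧ ((PP5LB.DD x : ℤ) : ℝ) ≤ -(h * r : ℝ) ^ 4 ∧ 0 < PP5LB.dV x ∧
  PP5LB.EE x ≠ 0

/-- B1 (helper24, helper42): the size of the family -/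
def StB1 : Prop := ∃ h0 : ℕ, ∀ (w : ℕ) (c : V10), PP5LB.Res w c → ∀ h : ℕ, h0 ≤ h → ∃ c1 : ℝ, 0 < c1 ∧ ∃ r0 : ℕ,
  ∀ r : ℕ, r0 ≤ r → c1 * (r : ℝ) ^ 8 ≤ (Fm h w c r).card

open Classical in
/-- B2 (helper24, helper42): few `x` are not good -/
def StB2 : Prop := ∃ (C : ℝ) (h0 : ℕ), ∀ (w : ℕ) (c : V10), 2 ≤ w → PP5LB.Res w c → ∀ h : ℕ, h0 ≤ h →
  ∃ r0 : ℕ, ∀ r : ℕ, r0 ≤ r → (((Fm h w c r).filter (fun x => ¬ Gx r x)).card : ℝ) ≤ C / w * (Fm h w c r).card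

open Classical in
/-- the first minimum (helper7) -/
def StL0 : Prop := ∃ h0 : ℕ, ∀ δ : ℝ, 0 < δ → ∃ η : ℝ, 0 < η ∧ ∀ (w : ℕ) (c : V10), PP5LB.Res w c →
  ∀ h : ℕ, h0 ≤ h → ∃ r0 : ℕ, ∀ r : ℕ, r0 ≤ r →
  (((Fm h w c r).filter (fun x => ¬ Lm (h * r) δ x)).card : ℝ) ≤ (r : ℝ) ^ (8 - η)

/-- C (helper20, helper88): splitting of `L_x` -/
def StC : Prop := ∃ h0 : ℕ, ∀ (h w r : ℕ) (c x : V10), h0 ≤ h → PP5LB.Res w c → 1 ≤ r → x ∈ Fm h w c r →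
  Gx r x → Spl x

/-- D (helper43): the seeds -/
def StD : Prop := ∃ (c1 ε0 : ℝ) (w0 h0 : ℕ), 0 < c1 ∧ 0 < ε0 ∧ 2 ≤ w0 ∧ ∀ (w : ℕ) (c : V10), w0 ≤ w →
  PP5LB.Res w c → ∀ h : ℕ, h0 ≤ h → ∀ a : ℝ, 0 < a → a ≤ 1 → ∃ r0 : ℕ, ∀ r : ℕ, r0 ≤ r →
    ∀ Y : Finset V10, Y ⊆ Fm h w c r → (Y.card : ℝ) ≤ ε0 * (Fm h w c r).card →
    c1 * (Fm h w c r).card * (a * (h * r : ℝ) ^ 2 / Real.log w) ≤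
      ∑ x ∈ Fm h w c r \ Y, ((Sd w (PP5LB.DD x) ⌊a * (h * r : ℝ) ^ 2⌋₊).card : ℝ)

/-- H (helper12): the relative average of `Θ` -/
def StH (δc A : ℝ) : Prop := ∃ (c3 C : ℝ) (h0 : ℕ), 0 < c3 ∧ ∀ (w : ℕ) (c : V10), 2 ≤ w → PP5LB.Res w c →
  ∀ h : ℕ, h0 ≤ h → ∃ r0 : ℕ, ∀ r : ℕ, r0 ≤ r → ∃ Θ : V10 → ℝ,
    CC1 ((h * r : ℝ) ^ (5 / 2 : ℝ)) δc A c3 Θ ∧ ∑ x ∈ Fm h w c r, Θ x ≤ C * (Fm h w c r).card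

/-- Z (helper37): the zero count (`δc = 1/50`, `A = 2`); (1) sharp, (2) cheap -/
def StZ (δc A : ℝ) : Prop := ∀ c3 C0 : ℝ, 0 < c3 → 1 ≤ C0 → ∃ κ0 η : ℝ, 0 < κ0 ∧ 0 < η ∧
  ∀ κ : ℝ, 0 < κ → κ ≤ κ0 → ∃ δ C R0 : ℝ, 0 < δ ∧ 1 ≤ R0 ∧ ∀ R : ℝ, R0 ≤ R →
  ∀ (x : V10) (T : ℝ) (G : Matrix (Fin 4) (Fin 4) ℤ) (l : Fin 4 → ℝ), GZ C0 R δ T x G l →
  ∀ (t : ℝ) (V : Finset (Fin 4 → ℤ)), (∀ v ∈ V, Pr4 v ∧ v ⬝ᵥ (G *ᵥ v) = 0 ∧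
    ∀ i, |(v i : ℝ)| * l i ≤ t * R ^ (5 / 2 : ℝ)) →
  (∀ Θ : V10 → ℝ, CC1 (R ^ (5 / 2 : ℝ)) δc A c3 Θ → R ^ (-κ) ≤ t → t ≤ R ^ κ →
    (V.card : ℝ) ≤ C * (Θ x * t ^ (4 / 3 : ℝ) * (1 + t ^ (2 / 3 : ℝ)) * R ^ 2 + R ^ (2 - η))) ∧
  (0 < t → t ≤ R ^ κ →
    (V.card : ℝ) ≤ R ^ (κ / 100) * (t ^ (4 / 3 : ℝ) * (1 + t ^ (2 / 3 : ℝ)) * R ^ 2 + 1))

/-- the zeros in the right direction, of the right size -/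
def Zg (R CV cD : ℝ) (x : V10) : Set PP5.Sp :=
  {P | Zr R CV x P ∧ cD * R ^ (5 / 2 : ℝ) ≤ |(P 0 : ℝ)| ∧ cD * R ^ 10 ≤ -(PP5.Df P : ℝ)}

/-- A (helper26): the seeds of one `x`: (good zeros) + (small zeros) + (`k > w`) -/
def StA : Prop := ∃ a C ε0 : ℝ, 0 < a ∧ a ≤ 1 ∧ 1 ≤ C ∧ 0 < ε0 ∧ ∀ ε : ℝ, 0 < ε → ε ≤ ε0 →
  ∃ (h0 : ℕ) (cD : ℝ), 0 < cD ∧ ∀ h : ℕ, h0 ≤ h → ∀ (κ δ : ℝ) (w : ℕ), 0 < κ → κ ≤ 1 / 200 → 0 < δ → δ ≤ κ / 100 →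
  2 ≤ w → ∃ r0 : ℕ, ∀ (r : ℕ) (c x : V10), r0 ≤ r → PP5LB.Res w c → x ∈ Fm h w c r → Gx r x →
  Lm (h * r) δ x → Spl x →
  (∀ t : ℝ, 0 < t → t ≤ (h * r : ℝ) ^ κ →
    (Nx (h * r) t x : ℝ) ≤
      (h * r : ℝ) ^ (κ / 50) * (t ^ (4 / 3 : ℝ) * (1 + t ^ (2 / 3 : ℝ)) * (h * r : ℝ) ^ 2 + 1)) →
  ((Sd w (PP5LB.DD x) ⌊a * (h * r : ℝ) ^ 2⌋₊).card : ℝ) ≤
    Set.ncard (Zg (h * r) (C * ε ^ (-(1 / 2) : ℝ)) cD x) + Nx (h * r) (C * ε ^ (1 / 2 : ℝ)) x +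
    ∑ k ∈ Ioc w ⌊(h * r : ℝ) ^ (κ / 2)⌋₊,
      (k.divisors.card : ℝ) ^ 3 * Nx (h * r) (C * ε ^ (-(1 / 2) : ℝ) / k) x +
    (h * r : ℝ) ^ (2 - κ / 20)

open Classical in
/-- G (helper10, helper99): improper zeros of a good `x` (removed set of density `C w^(-1/6)`) -/
def StG (δc A : ℝ) : Prop := ∀ c3 : ℝ, 0 < c3 → ∃ κ0 : ℝ, 0 < κ0 ∧ ∀ κ : ℝ, 0 < κ → κ ≤ κ0 →
  ∃ (δ η C : ℝ) (h0 : ℕ), 0 < δ ∧ 0 < η ∧ ∀ (w : ℕ) (c : V10), 2 ≤ w → PP5LB.Res w c → ∀ h : ℕ, h0 ≤ h →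
  ∃ r0 : ℕ, ∀ r : ℕ, r0 ≤ r → ∃ Y : Finset V10, Y ⊆ Fm h w c r ∧
  (Y.card : ℝ) ≤ C * (w : ℝ) ^ (-(1 / 6) : ℝ) * (Fm h w c r).card ∧
  ∀ Θ : V10 → ℝ, CC1 ((h * r : ℝ) ^ (5 / 2 : ℝ)) δc A c3 Θ → ∀ x ∈ Fm h w c r \ Y, Gx r x → Lm (h * r) δ x →
  ∀ t : ℝ, 1 ≤ t → t ≤ (h * r : ℝ) ^ (κ / 2) →
  (Set.ncard {P : PP5.Sp | Zr (h * r) t x P ∧
      ∃ p : ℕ, p.Prime ∧ w < p ∧ (p : ℝ) ≤ (h * r : ℝ) ^ δ ∧ Imp p P} : ℝ) ≤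
    C * (Θ x * t ^ 2 * (w : ℝ) ^ (-(1 / 6) : ℝ) * (h * r : ℝ) ^ 2 + (h * r : ℝ) ^ (2 - η))

/-- G' (helper10, helper99): no improper zeros at `p ≤ w` -/
def StG0 : Prop := ∀ (h w r : ℕ) (c x : V10) (P : PP5.Sp), PP5LB.Res w c → x ∈ Fm h w c r →
  PP5.InE P x → PP5.Qd P → Prs P → ∀ p : ℕ, p.Prime → p ≤ w → ¬ Imp p P

/-- the pairs (result of A, B, C, D, G, H, Z, L0) -/
def StP : Prop := ∃ c CV cD δ R0 : ℝ, 0 < c ∧ 0 < cD ∧ 0 < δ ∧ ∀ R : ℝ, R0 ≤ R →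
  ∃ Q : Finset (V10 × PP5.Sp), c * R ^ 10 ≤ (Q.card : ℝ) ∧ ∀ q ∈ Q,
    (∀ p : ℕ, p.Prime → ∃ j, ¬ (p : ℤ) ∣ q.1 j) ∧ PP5L.FF q.1 = 0 ∧ PP5LB.DD q.1 < 0 ∧
    (∀ j, |(q.1 j : ℝ)| ≤ 3 * R) ∧ R / 2 ≤ |(q.1 0 : ℝ)| ∧ q.2 ∈ Zg R CV cD q.1 ∧
    ∀ p : ℕ, p.Prime → (p : ℝ) ≤ R ^ δ → ¬ Imp p q.2

/-- the points of the final region -/
structure Rg (y CV cD : ℝ) (P : PP5.Sp) : Prop where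
  qd : PP5.Qd P
  pr : Prs P
  le : ∀ a, |(P a : ℝ)| ≤ CV * y
  dl : cD * y ^ 4 ≤ -(PP5.Df P : ℝ)

/-- E (helper96, helper37, helper45): the points -/
def StE : Prop := ∃ c CV cD δ y0 : ℝ, 0 < c ∧ 0 < cD ∧ 0 < δ ∧ ∀ y : ℝ, y0 ≤ y →
  ∃ S : Finset PP5.Sp, c * y ^ 4 ≤ (S.card : ℝ) ∧ ∀ P ∈ S, Rg y CV cD P ∧ cD * y ≤ |(P 0 : ℝ)| ∧
    ∀ p : ℕ, p.Prime → (p : ℝ) ≤ y ^ δ → ¬ Imp p P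

/-- the conductor of `P` is divisible by `f` -/
def Cdf (f : ℕ) (P : PP5.Sp) : Prop := ∃ d : ℤ, PP5.Df P = (f : ℤ) ^ 2 * d ∧ (d % 4 = 0 ∨ d % 4 = 1)

/-- F2 (helper8, helper17): few points of large conductor -/
def StF2 : Prop := ∀ CV cD δ : ℝ, 0 < CV → 0 < cD → 0 < δ → ∃ η C : ℝ, 0 < η ∧ ∀ y : ℝ, 1 ≤ y →
  ∀ S : Finset PP5.Sp, (∀ P ∈ S, Rg y CV cD P ∧ ¬ Imp 2 P ∧ ∃ f : ℕ, y ^ δ ≤ (f : ℝ) ∧ Cdf f P) →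
  (S.card : ℝ) ≤ C * y ^ (4 - η)

/-- F (helper62, helper2): the classes -/
def StF : Prop := ∃ c X0 : ℝ, 0 < c ∧ ∀ X : ℝ, X0 ≤ X →
  c * X ≤ ∑ᶠ K ∈ {K : IntermediateField ℚ ℂ | ∃ _ : NumberField K, Module.finrank ℚ K = 2 ∧
        (∃ x : K, (x : ℂ).im ≠ 0) ∧ |((NumberField.discr K : ℤ) : ℝ)| ≤ X},
        ((Nat.card {g : ClassGroup (NumberField.RingOfIntegers K) // g ^ 5 = 1} : ℝ) - 1)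

end Pool.Agent.LB
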