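import Pool.Agent.LB.Defs
import Pool.Agent.PP5LN.Defs

/-!
# LB5, G: the removed set (definitions)
-/

set_option autoImplicit false

namespace Pool.Agent.LB

open Finset

/-- the number of improper points of `L_x` modulo `p` -/
noncomputable def Np (p : ℕ) (x : V10) : ℕ :=
  Set.ncard {P : Fin 12 → ZMod p | PP5LN.QdR P ∧ PP5LN.ImR P ∧ P ≠ 0 ∧ PP5LN.InR P (PP5LB.red p x)}

/-- the removed set -/
def StY : Prop := ∃ (C : ℝ) (h0 : ℕ), ∀ (w : ℕ) (c : V10), 2 ≤ w → PP5LB.Res w c → ∀ h : ℕ, h0 ≤ h →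
  ∃ r0 : ℕ, ∀ r : ℕ, r0 ≤ r → ∃ Y : Finset V10, Y ⊆ Fm h w c r ∧
    (Y.card : ℝ) ≤ C * (w : ℝ) ^ (-(1 / 6) : ℝ) * (Fm h w c r).card ∧
    ∀ x ∈ Fm h w c r, x ∉ Y →
      ∑ p ∈ (Ioc w ⌊(r : ℝ) ^ (1 / 100 : ℝ)⌋₊).filter Nat.Prime, (Np p x : ℝ) * (p : ℝ) ^ (-(7 / 3) : ℝ)
        ≤ (w : ℝ) ^ (-(1 / 6) : ℝ)

open Classical in
/-- upper equidistribution modulo the primes `w < q ≤ r ^ (1/100)` (from helper24's `eqd`) -/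
def StEq (C0 : ℝ) : Prop := ∃ h0 : ℕ, ∀ (w : ℕ) (c : V10), 2 ≤ w → PP5LB.Res w c → ∀ h : ℕ, h0 ≤ h →
  ∃ r0 : ℕ, ∀ r : ℕ, r0 ≤ r → ∀ q : ℕ, q.Prime → w < q → (q : ℝ) ≤ (r : ℝ) ^ (1 / 100 : ℝ) →
    ∀ y : Fin 10 → ZMod q,
      (((Fm h w c r).filter (fun x => PP5LB.red q x = y)).card : ℝ) * (q : ℝ) ^ 9 ≤
        C0 * (Fm h w c r).card

end Pool.Agent.LB
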