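import Pool.Agent.LB.Defs
import Pool.Agent.PP5LE.Hzc

/-!
# LB5, section E: the points (`StP` gives `StE`)
-/

set_option autoImplicit false

namespace Pool.Agent.LB

open Matrix Finset

theorem ste (hZ : PP5LE.HZs) (hP : StP) : StE := by
  classical
  obtain ⟨c, CV, cD, δ, R0, hc, hcD, hδ, hP⟩ := hP
  obtain ⟨K, hK⟩ : ∃ K : ℝ, K = max CV 16 / 16 := ⟨_, rfl⟩
  have hK1 : 1 ≤ K := by
    rw [hK]
    have := le_max_right CV 16
    linarith
  have hKC : CV ≤ 16 * K := by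
    rw [hK]
    have := le_max_left CV 16
    linarith
  have hK0 : 0 < K := by linarith
  obtain ⟨c3, y1, hc3, hy1, hm⟩ := PP5LE.pairs_of hZ (cD / K) (c / K ^ 4) 3 (by positivity) (by positivity)
    (by norm_num)
  refine ⟨c3 * K ^ 4, CV, cD, 2 / 5 * δ, max y1 (max 1 (|R0| + 1) ^ (5 / 2 : ℝ)), by positivity, hcD,
    by positivity, ?_⟩
  intro y hy
  have hy1' : y1 ≤ y := (le_max_left _ _).trans hy
  have hy1'' : 1 ≤ y := hy1.trans hy1'
  have hy0 : 0 < y := by linarith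
  obtain ⟨R, hR⟩ : ∃ R : ℝ, R = y ^ (2 / 5 : ℝ) := ⟨_, rfl⟩
  have hR0 : 0 < R := by rw [hR]; positivity
  have hRy : R ^ (5 / 2 : ℝ) = y := by
    rw [hR, ← Real.rpow_mul hy0.le]
    norm_num
  have hR10 : R ^ 10 = y ^ 4 := by
    rw [← hRy, ← Real.rpow_natCast (R ^ (5 / 2 : ℝ)) 4, ← Real.rpow_mul hR0.le, ← Real.rpow_natCast R 10]
    norm_num
  have hRR : R0 ≤ R := by
    have h1 : max 1 (|R0| + 1) ^ (5 / 2 : ℝ) ≤ y := (le_max_right _ _).trans hy
    have h2 : (max 1 (|R0| + 1) ^ (5 / 2 : ℝ)) ^ (2 / 5 : ℝ) ≤ y ^ (2 / 5 : ℝ) :=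
      Real.rpow_le_rpow (by positivity) h1 (by norm_num)
    rw [← Real.rpow_mul (by positivity)] at h2
    rw [show (5 / 2 : ℝ) * (2 / 5) = 1 by norm_num, Real.rpow_one] at h2
    rw [hR]
    have h3 := le_abs_self R0
    have h4 := le_max_right 1 (|R0| + 1)
    linarith
  obtain ⟨Q, hQc, hQ⟩ := hP R hRR
  have hprs : ∀ q ∈ Q, PP5LE.Prs (cD / K) 3 (K * y) q.1 q.2 := by
    intro q hq
    obtain ⟨h1, h2, h3, h4, h5, ⟨hz, h6, h7⟩, h8⟩ := hQ q hq
    have hR3 : R ≤ (K * y) ^ (2 / 5 : ℝ) := by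
      rw [hR]
      exact Real.rpow_le_rpow hy0.le (by nlinarith) (by norm_num)
    refine ⟨hz.inE, h1, h2, ?_, ?_, fun j => (h4 j).trans (by linarith), hz.qd, hz.pr, ?_, ?_, ?_⟩
    · intro h0
      rw [h0] at h5
      norm_num at h5
      linarith
    · rintro ⟨m, hm'⟩
      have : PP5LB.DD q.1 = m * m := hm'
      nlinarith [mul_self_nonneg m]
    · intro i
      have h9 := hz.le i
      rw [hRy] at h9
      refine h9.trans ?_
      nlinarith
    · rw [hRy] at h6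
      have : cD / K * (K * y) = cD * y := by field_simp
      rw [this]
      exact h6
    · rintro ⟨m, hm'⟩
      have h9 : (0 : ℝ) < cD * R ^ 10 := by positivity
      have h10 : ((PP5.Df q.2 : ℤ) : ℝ) < 0 := by linarith
      have h11 : PP5.Df q.2 < 0 := by exact_mod_cast h10
      nlinarith [mul_self_nonneg m]
  have hKy : y1 ≤ K * y := by nlinarith
  have hcard : c / K ^ 4 * (K * y) ^ 4 ≤ (Q.card : ℝ) := by
    have : c / K ^ 4 * (K * y) ^ 4 = c * R ^ 10 := by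
      rw [hR10]
      field_simp
    rw [this]
    exact hQc
  refine ⟨Q.image Prod.snd, ?_, ?_⟩
  · have := hm (K * y) hKy Q hprs hcard
    have e : c3 * K ^ 4 * y ^ 4 = c3 * (K * y) ^ 4 := by ring
    rw [e]
    exact this
  · intro P hP'
    obtain ⟨q, hq, rfl⟩ := Finset.mem_image.mp hP'
    obtain ⟨h1, h2, h3, h4, h5, ⟨hz, h6, h7⟩, h8⟩ := hQ q hq
    rw [hRy] at h6
    rw [hR10] at h7
    refine ⟨⟨hz.qd, hz.pr, fun a => ?_, h7⟩, h6, fun p hp hpy => h8 p hp ?_⟩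
    · have := hz.le a
      rw [hRy] at this
      exact this
    · rw [hR, ← Real.rpow_mul hy0.le]
      exact hpy

/-- section E -/
theorem stE (hP : StP) : StE := ste PP5LE.hzs hP

end Pool.Agent.LB
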