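import Pool.Agent.LB.FinP
import Pool.Agent.LB.Ste
import Pool.Agent.LBM.Fd
import Pool.Agent.LBK.Mlt
import Pool.Agent.LBT.Mn

/-!
# LB5: the assembly of `StF` (helper12)
-/

set_option autoImplicit false

namespace Pool.Agent.LB

theorem stFd (hD : StD) (hT : LBM.Tot) : StF :=
  LBM.stF_of (stE (stPd hD)) LBT.stF2 LBK.mult hT

end Pool.Agent.LB
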