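import Pool.Agent.LB.Defs
import Pool.Agent.PP5LN.Iso
import Pool.Agent.PP5LN.Lb4b

/-!
# LB5: `StLoc`, `StG0`, and the reduction modulo `p` of the points of `L_x`
-/

set_option autoImplicit false

namespace Pool.Agent.LB

open Finset Pool.Agent.PP5LN

/-- reduction modulo `p` of a point -/
def rdP (p : ℕ) (P : PP5.Sp) : Fin 12 → ZMod p := fun i => ((P i : ℤ) : ZMod p)

theorem cast_InR {P : PP5.Sp} {x : V10} (h : PP5.InE P x) (p : ℕ) :
    InR (rdP p P) (PP5LB.red p x) where
  e1 := by
    have := congrArg (Int.cast : ℤ → ZMod p) h.e1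
    push_cast at this
    simpa only [rdP, PP5LB.red] using this
  e2 := by
    have := congrArg (Int.cast : ℤ → ZMod p) h.e2
    push_cast at this
    simpa only [rdP, PP5LB.red] using this
  e3 := by
    have := congrArg (Int.cast : ℤ → ZMod p) h.e3
    push_cast at this
    simpa only [rdP, PP5LB.red] using this
  e4 := by
    have := congrArg (Int.cast : ℤ → ZMod p) h.e4
    push_cast at this
    simpa only [rdP, PP5LB.red] using this
  e5 := by
    have := congrArg (Int.cast : ℤ → ZMod p) h.e5
    push_cast at this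
    simpa only [rdP, PP5LB.red] using this
  e6 := by
    have := congrArg (Int.cast : ℤ → ZMod p) h.e6
    push_cast at this
    simpa only [rdP, PP5LB.red] using this
  e7 := by
    have := congrArg (Int.cast : ℤ → ZMod p) h.e7
    push_cast at this
    simpa only [rdP, PP5LB.red] using this
  e8 := by
    have := congrArg (Int.cast : ℤ → ZMod p) h.e8
    push_cast at this
    simpa only [rdP, PP5LB.red] using this
  e9 := by
    have := congrArg (Int.cast : ℤ → ZMod p) h.e9
    push_cast at this
    simpa only [rdP, PP5LB.red] using this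
  e10 := by
    have := congrArg (Int.cast : ℤ → ZMod p) h.e10
    push_cast at this
    simpa only [rdP, PP5LB.red] using this
  e11 := by
    have := congrArg (Int.cast : ℤ → ZMod p) h.e11
    push_cast at this
    simpa only [rdP, PP5LB.red] using this
  e12 := by
    have := congrArg (Int.cast : ℤ → ZMod p) h.e12
    push_cast at this
    simpa only [rdP, PP5LB.red] using this
  e13 := by
    have := congrArg (Int.cast : ℤ → ZMod p) h.e13
    push_cast at this
    simpa only [rdP, PP5LB.red] using this
  e14 := by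
    have := congrArg (Int.cast : ℤ → ZMod p) h.e14
    push_cast at this
    simpa only [rdP, PP5LB.red] using this
  e15 := by
    have := congrArg (Int.cast : ℤ → ZMod p) h.e15
    push_cast at this
    simpa only [rdP, PP5LB.red] using this
  e16 := by
    have := congrArg (Int.cast : ℤ → ZMod p) h.e16
    push_cast at this
    simpa only [rdP, PP5LB.red] using this

theorem cast_QdR {P : PP5.Sp} (h : PP5.Qd P) (p : ℕ) : QdR (rdP p P) where
  h1 := by
    have := congrArg (Int.cast : ℤ → ZMod p) h.h1
    push_cast at this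
    simpa only [rdP] using this
  h2 := by
    have := congrArg (Int.cast : ℤ → ZMod p) h.h2
    push_cast at this
    simpa only [rdP] using this
  h3 := by
    have := congrArg (Int.cast : ℤ → ZMod p) h.h3
    push_cast at this
    simpa only [rdP] using this
  h4 := by
    have := congrArg (Int.cast : ℤ → ZMod p) h.h4
    push_cast at this
    simpa only [rdP] using this
  h5 := by
    have := congrArg (Int.cast : ℤ → ZMod p) h.h5
    push_cast at this
    simpa only [rdP] using this
  h6 := by
    have := congrArg (Int.cast : ℤ → ZMod p) h.h6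
    push_cast at this
    simpa only [rdP] using this
  h7 := by
    have := congrArg (Int.cast : ℤ → ZMod p) h.h7
    push_cast at this
    simpa only [rdP] using this
  h8 := by
    have := congrArg (Int.cast : ℤ → ZMod p) h.h8
    push_cast at this
    simpa only [rdP] using this
  h9 := by
    have := congrArg (Int.cast : ℤ → ZMod p) h.h9
    push_cast at this
    simpa only [rdP] using this
  h10 := by
    have := congrArg (Int.cast : ℤ → ZMod p) h.h10
    push_cast at this
    simpa only [rdP] using this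

theorem cast_ImR {P : PP5.Sp} (h : PP5.Qd P) {p : ℕ} (hi : Imp p P) : ImR (rdP p P) := by
  obtain ⟨i1, i2, i3⟩ := hi
  have a1 := (ZMod.intCast_zmod_eq_zero_iff_dvd _ p).2 i1
  have a2 := (ZMod.intCast_zmod_eq_zero_iff_dvd _ p).2 i2
  have a3 := (ZMod.intCast_zmod_eq_zero_iff_dvd _ p).2 i3
  have b1 := congrArg (Int.cast : ℤ → ZMod p) h.h1
  simp only [PP5.Nf, PP5.Bf] at a1 a2
  push_cast at a1 a2 a3 b1
  constructor <;> simp only [rdP]
  · linear_combination b1 - a1
  · linear_combination -a2
  · linear_combination -a3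

theorem rdP_ne {P : PP5.Sp} (h : Prs P) {p : ℕ} (hp : p.Prime) : rdP p P ≠ 0 := by
  intro h0
  apply h p hp
  intro i
  exact (ZMod.intCast_zmod_eq_zero_iff_dvd _ p).1 (congrFun h0 i)

/-- 4(b) -/
theorem stLoc : StLoc := by
  intro w
  obtain ⟨c, hF, h0, h1, hV, hWW, hD, hir⟩ := PP5LN.lb4b w
  have key : ∀ (a : ℤ) (p : ℕ), p.Prime → ¬ IsSquare ((a : ℤ) : ZMod p) → jacobiSym a p = -1 := by
    intro a p hp ha
    have : Fact p.Prime := ⟨hp⟩
    rw [← jacobiSym.legendreSym.to_jacobiSym]
    exact (legendreSym.eq_neg_one_iff p).2 ha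
  exact ⟨c, ⟨hF, h0, h1, hV, hWW, hD, fun p hp h2 hw => key _ p hp (hir p hp h2 hw).1,
    fun p hp h2 hw => key _ p hp (hir p hp h2 hw).2.1,
    fun p hp h2 hw => key _ p hp (hir p hp h2 hw).2.2⟩⟩

private theorem dvd_Wf {w p : ℕ} (hp : p.Prime) (h : p ≤ w) : p ∣ PP5LB.Wf w := by
  unfold PP5LB.Wf
  exact dvd_mul_of_dvd_right ((hp.dvd_primorial_iff).2 h) _

private theorem eight_dvd_Wf {w : ℕ} (h : 2 ≤ w) : 8 ∣ PP5LB.Wf w := by
  unfold PP5LB.Wf
  obtain ⟨k, hk⟩ := (Nat.prime_two.dvd_primorial_iff).2 h
  exact ⟨k, by rw [hk]; ring⟩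

/-- members of the family are congruent to `c` -/
theorem Fm_cong {h w r : ℕ} {c x : V10} (hx : x ∈ Fm h w c r) (j : Fin 10) :
    ((PP5LB.Wf w : ℕ) : ℤ) ∣ x j - c j := by
  have h1 : PP5LB.red (PP5LB.Wf w) x = PP5LB.red (PP5LB.Wf w) c := by
    have := hx
    simp only [Fm, PP5LB.XC, mem_filter] at this
    exact this.2
  have h2 := congrFun h1 j
  simp only [PP5LB.red] at h2
  have h3 : (((x j - c j : ℤ)) : ZMod (PP5LB.Wf w)) = 0 := by
    push_cast
    rw [h2, sub_self]
  exact (ZMod.intCast_zmod_eq_zero_iff_dvd _ _).1 h3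

private theorem an2 : ∀ a b : ZMod 2, (a ≠ 0 ∨ b ≠ 0) → 1 * a ^ 2 - 1 * a * b + 1 * b ^ 2 ≠ 0 := by
  decide

theorem stG0 : StG0 := by
  intro h w r c x P hres hx hE hQ hP p hp hpw hImp
  have hpW : (p : ℤ) ∣ ((PP5LB.Wf w : ℕ) : ℤ) := by exact_mod_cast dvd_Wf hp hpw
  have : Fact p.Prime := ⟨hp⟩
  have hxc : ∀ j, ((x j : ℤ) : ZMod p) = ((c j : ℤ) : ZMod p) := by
    intro j
    have := (ZMod.intCast_zmod_eq_zero_iff_dvd _ p).2 (hpW.trans (Fm_cong hx j))
    push_cast at this
    exact sub_eq_zero.1 this
  have hiso := iso (rdP_ne hP hp) (cast_QdR hQ p) (cast_ImR hQ hImp) (cast_InR hE p)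
  by_cases h2 : p = 2
  · subst h2
    have hodd : ∀ j, ((x j : ℤ) : ZMod 2) = ((c j : ℤ) : ZMod 2) := hxc
    have key : ∀ s a b : ℤ, (s ^ 2 - 4 * a * b) % 8 = 5 →
        ((s : ZMod 2) = 1) ∧ ((a : ZMod 2) = 1) ∧ ((b : ZMod 2) = 1) := by
      intro s a b h5
      have hs : s % 2 = 1 := by
        rcases Int.emod_two_eq_zero_or_one s with h | h
        · exfalso
          obtain ⟨k, hk⟩ : ∃ k, s = 2 * k := ⟨s / 2, by omega⟩
          have : s ^ 2 - 4 * a * b = 4 * (k ^ 2 - a * b) := by rw [hk]; ring
          omega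
        · exact h
      obtain ⟨k, hk⟩ : ∃ k, s = 2 * k + 1 := ⟨s / 2, by omega⟩
      obtain ⟨l, hl⟩ : ∃ l, k * (k + 1) = 2 * l := by
        obtain ⟨l, hl⟩ := Int.even_mul_succ_self k
        exact ⟨l, by rw [hl]; ring⟩
      have h6 : s ^ 2 - 4 * a * b = 8 * l + 1 - 4 * (a * b) := by
        rw [hk]; linear_combination 4 * hl
      have hab : (a * b) % 2 = 1 := by omega
      have ha : a % 2 = 1 := by
        rcases Int.emod_two_eq_zero_or_one a with h | h
        · exfalso
          have := Int.mul_emod a b 2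
          rw [h] at this
          simp at this
          omega
        · exact h
      have hb : b % 2 = 1 := by
        rcases Int.emod_two_eq_zero_or_one b with h | h
        · exfalso
          have := Int.mul_emod a b 2
          rw [h] at this
          simp at this
          omega
        · exact h
      have cst : ∀ n : ℤ, n % 2 = 1 → (n : ZMod 2) = 1 := by
        intro n hn
        have h7 : ((n - 1 : ℤ) : ZMod 2) = 0 :=
          (ZMod.intCast_zmod_eq_zero_iff_dvd _ 2).2 (by norm_num; omega)
        push_cast at h7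
        exact sub_eq_zero.1 h7
      exact ⟨cst s hs, cst a ha, cst b hb⟩
    rcases hiso with ⟨a, b, hab, h3⟩ | ⟨a, b, hab, h3⟩
    · obtain ⟨k1, k2, k3⟩ := key (c 4 + c 5) (c 0) (c 2) hres.v8
      apply an2 a b hab
      simp only [PP5LB.red] at h3
      rw [hodd 0, hodd 2, hodd 4, hodd 5, k2, k3] at h3
      push_cast at k1
      rw [k1] at h3
      exact h3
    · obtain ⟨k1, k2, k3⟩ := key (c 4 - c 5) (c 1) (c 3) hres.w8
      apply an2 a b hab
      simp only [PP5LB.red] at h3
      rw [hodd 1, hodd 3, hodd 4, hodd 5, k2, k3] at h3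
      push_cast at k1
      rw [k1] at h3
      exact h3
  · have nsq : ∀ a : ℤ, jacobiSym a p = -1 → ¬ IsSquare ((a : ℤ) : ZMod p) := by
      intro a ha
      rw [← jacobiSym.legendreSym.to_jacobiSym] at ha
      exact (legendreSym.eq_neg_one_iff p).1 ha
    rcases hiso with h3 | h3
    · apply nsq _ (hres.vp p hp h2 hpw)
      have := h3.sq
      simp only [PP5LB.red] at this
      rw [hxc 0, hxc 2, hxc 4, hxc 5] at this
      simp only [PP5LB.dV]
      push_cast
      exact this
    · apply nsq _ (hres.wp p hp h2 hpw)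
      have := h3.sq
      simp only [PP5LB.red] at this
      rw [hxc 1, hxc 3, hxc 4, hxc 5] at this
      simp only [PP5LB.dW]
      push_cast
      exact this

end Pool.Agent.LB
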