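import Pool.Agent.LB.StPc

/-!
# LB/StPd: the choice of `w` and elementary facts (helper12)
-/

set_option autoImplicit false

namespace Pool.Agent.LB

open Matrix Finset Pool.Agent.PP5B Filter Topology

theorem fm_ff {h w r : ℕ} {c x : V10} (hx : x ∈ Fm h w c r) : PP5L.FF x = 0 ∧ PP5LB.Uni x := by
  classical
  unfold Fm PP5LB.XC at hx
  have h1 := (Finset.mem_filter.1 hx).1
  unfold PP5LB.XA at h1
  exact (Finset.mem_filter.1 h1).2

theorem uni_pr {x : V10} (hx : PP5LB.Uni x) : ∀ p : ℕ, p.Prime → ∃ j, ¬ (p : ℤ) ∣ x j := by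
  intro p hp
  by_contra hcon
  push Not at hcon
  obtain ⟨a, b, c, h⟩ := hx
  have h1 : (p : ℤ) ∣ 1 := by
    rw [← h]
    exact dvd_add (dvd_add ((hcon 1).mul_left _) ((hcon 6).mul_left _)) ((hcon 7).mul_left _)
  have h2 : p ∣ 1 := by exact_mod_cast h1
  exact hp.one_lt.ne' (Nat.dvd_one.mp h2)

theorem Lm.mono {R δ δ' : ℝ} {x : V10} (h : Lm R δ x) (hR : 1 ≤ R) (hd : δ ≤ δ') : Lm R δ' x := by
  intro P h1 h2
  obtain ⟨a, ha⟩ := h P h1 h2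
  exact ⟨a, (Real.rpow_le_rpow_of_exponent_le hR (by linarith)).trans ha⟩

/-- the choice of `w` -/
theorem ex_w (w0 : ℕ) {ε0 εD CB CG K c : ℝ} (hε0 : 0 < ε0) (hεD : 0 < εD) (hc : 0 < c) :
    ∃ w : ℕ, w0 ≤ w ∧ 2 ≤ w ∧ (w : ℝ) ^ (-(1 / 50) : ℝ) ≤ ε0 ∧ CB / w ≤ εD / 3 ∧
      CG * (w : ℝ) ^ (-(1 / 6) : ℝ) ≤ εD / 3 ∧
      K * (w : ℝ) ^ (-(1 / 100) : ℝ) ≤ c / (4 * Real.log w) := by
  have t1 : Tendsto (fun w : ℕ => (w : ℝ) ^ (-(1 / 50) : ℝ)) atTop (𝓝 0) :=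
    (tendsto_rpow_neg_atTop (by norm_num : (0 : ℝ) < 1 / 50)).comp tendsto_natCast_atTop_atTop
  have t2 : Tendsto (fun w : ℕ => CB / (w : ℝ)) atTop (𝓝 0) :=
    tendsto_const_nhds.div_atTop tendsto_natCast_atTop_atTop
  have t3 : Tendsto (fun w : ℕ => CG * (w : ℝ) ^ (-(1 / 6) : ℝ)) atTop (𝓝 0) := by
    have := ((tendsto_rpow_neg_atTop (by norm_num : (0 : ℝ) < 1 / 6)).comp
      tendsto_natCast_atTop_atTop).const_mul CG
    simpa using this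
  have t4 : Tendsto (fun w : ℕ => |K| * (4 * (Real.log w / (w : ℝ) ^ (1 / 100 : ℝ)))) atTop (𝓝 0) := by
    have h1 := (isLittleO_log_rpow_atTop (by norm_num : (0 : ℝ) < 1 / 100)).tendsto_div_nhds_zero
    have h2 := ((h1.comp tendsto_natCast_atTop_atTop).const_mul (4 : ℝ)).const_mul |K|
    simpa using h2
  have e1 := t1.eventually_le_const hε0
  have e2 := t2.eventually_le_const (show (0 : ℝ) < εD / 3 by positivity)
  have e3 := t3.eventually_le_const (show (0 : ℝ) < εD / 3 by positivity)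
  have e4 := t4.eventually_le_const hc
  obtain ⟨w, hw⟩ := (((e1.and e2).and (e3.and e4)).and
    ((eventually_ge_atTop w0).and (eventually_ge_atTop 2))).exists
  obtain ⟨⟨⟨h1, h2⟩, h3, h4⟩, h5, h6⟩ := hw
  refine ⟨w, h5, h6, h1, h2, h3, ?_⟩
  have hw1 : (2 : ℝ) ≤ w := by exact_mod_cast h6
  have hw0 : (0 : ℝ) < w := by linarith
  have hl : 0 < Real.log w := Real.log_pos (by linarith)
  have hp : 0 < (w : ℝ) ^ (1 / 100 : ℝ) := Real.rpow_pos_of_pos hw0 _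
  rw [le_div_iff₀ (by positivity)]
  have h7 : (w : ℝ) ^ (-(1 / 100) : ℝ) = ((w : ℝ) ^ (1 / 100 : ℝ))⁻¹ := Real.rpow_neg hw0.le _
  rw [h7]
  calc K * ((w : ℝ) ^ (1 / 100 : ℝ))⁻¹ * (4 * Real.log w)
      ≤ |K| * ((w : ℝ) ^ (1 / 100 : ℝ))⁻¹ * (4 * Real.log w) := by
        gcongr
        exact le_abs_self K
    _ = |K| * (4 * (Real.log w / (w : ℝ) ^ (1 / 100 : ℝ))) := by
      rw [div_eq_mul_inv]
      ring
    _ ≤ c := h4

/-- `C R ^ (2 - η) ≤ c R ^ 2` for large `R` -/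
theorem ev_ps (C : ℝ) {c η : ℝ} (hc : 0 < c) (hη : 0 < η) :
    ∀ᶠ R : ℝ in atTop, C * R ^ (2 - η) ≤ c * R ^ 2 := by
  have t : Tendsto (fun R : ℝ => |C| * R ^ (-η)) atTop (𝓝 0) := by
    have := (tendsto_rpow_neg_atTop hη).const_mul |C|
    simpa using this
  filter_upwards [t.eventually_le_const hc, eventually_ge_atTop 1] with R h1 h2
  have hR : 0 < R := by linarith
  have e : R ^ (2 - η) = R ^ (-η) * R ^ 2 := by
    rw [show (2 : ℝ) - η = -η + 2 by ring, Real.rpow_add hR]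
    norm_num
  rw [e]
  calc C * (R ^ (-η) * R ^ 2) ≤ |C| * (R ^ (-η) * R ^ 2) := by
        gcongr
        exact le_abs_self C
    _ = (|C| * R ^ (-η)) * R ^ 2 := by ring
    _ ≤ c * R ^ 2 := by gcongr

/-- `C ≤ R ^ κ` for large `R` -/
theorem ev_pow (C : ℝ) {κ : ℝ} (hκ : 0 < κ) : ∀ᶠ R : ℝ in atTop, C ≤ R ^ κ :=
  (tendsto_rpow_atTop hκ).eventually_ge_atTop C

end Pool.Agent.LB
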