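import Pool.Agent.LB.StPe
import Pool.Agent.LB.StPd
import Pool.Agent.PP5LH.CcW
import Pool.Agent.PP5LH.ClG
import Pool.Agent.PP5LB.Eq2
import Pool.Agent.PP5LB.Nce

/-!
# LB/StHa: `StH` (helper12)
-/

set_option autoImplicit false

namespace Pool.Agent.LB

open Matrix Finset Pool.Agent.PP5B Filter Topology

theorem DX_eq (x : V10) : PP5C.DX x = PP5LB.DD x := rfl

/-- crude bound for the determinant -/
theorem DD_le {R : ℝ} {x : V10} (hR : 0 ≤ R) (hx : ∀ j, |(x j : ℝ)| ≤ 3 * R) :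
    |((PP5LB.DD x : ℤ) : ℝ)| ≤ 24 * (6 * R) ^ 4 := by
  have hent : ∀ i k, |((PP5L.SS x i k : ℤ) : ℝ)| ≤ 6 * R := by
    have a : ∀ j, -(3 * R) ≤ (x j : ℝ) ∧ (x j : ℝ) ≤ 3 * R := fun j => abs_le.1 (hx j)
    intro i k
    rw [abs_le]
    have a0 := a 0; have a1 := a 1; have a2 := a 2; have a3 := a 3; have a4 := a 4
    have a5 := a 5; have a6 := a 6; have a7 := a 7; have a8 := a 8; have a9 := a 9
    fin_cases i <;> fin_cases k <;> simp [PP5L.SS] <;> constructor <;> linarith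
  have h1 : ((PP5LB.DD x : ℤ) : ℝ) = ∑ σ : Equiv.Perm (Fin 4), ((Equiv.Perm.sign σ : ℤ) : ℝ) *
      ∏ i, ((PP5L.SS x (σ i) i : ℤ) : ℝ) := by
    unfold PP5LB.DD
    rw [Matrix.det_apply]
    push_cast
    refine Finset.sum_congr rfl fun σ _ => ?_
    rw [Units.smul_def, zsmul_eq_mul]
    push_cast
    rfl
  rw [h1]
  refine (Finset.abs_sum_le_sum_abs _ _).trans ?_
  have h2 : ∀ σ ∈ (Finset.univ : Finset (Equiv.Perm (Fin 4))), |((Equiv.Perm.sign σ : ℤ) : ℝ) *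
      ∏ i, ((PP5L.SS x (σ i) i : ℤ) : ℝ)| ≤ (6 * R) ^ 4 := by
    intro σ _
    rw [abs_mul, Finset.abs_prod]
    have h3 : |((Equiv.Perm.sign σ : ℤ) : ℝ)| = 1 := by
      rcases Int.units_eq_one_or (Equiv.Perm.sign σ) with h | h <;> rw [h] <;> simp
    rw [h3, one_mul]
    calc ∏ i, |((PP5L.SS x (σ i) i : ℤ) : ℝ)| ≤ ∏ _i : Fin 4, (6 * R) :=
          Finset.prod_le_prod (fun i _ => abs_nonneg _) fun i _ => hent _ _
      _ = (6 * R) ^ 4 := by simp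
  refine (Finset.sum_le_sum h2).trans (le_of_eq ?_)
  rw [Finset.sum_const, Finset.card_univ, Fintype.card_perm, Fintype.card_fin]
  simp [Nat.factorial]

theorem famG {w : ℕ} {c : V10} (hc : PP5LB.Res w c) : PP5LH.FamG (PP5LB.Wf w) c := by
  refine ⟨?_, ?_, ?_, ?_⟩
  · exact Nat.one_le_iff_ne_zero.2 (NeZero.ne (PP5LB.Wf w))
  · unfold PP5LB.Wf
    exact Dvd.dvd.mul_right (by norm_num) _
  · rw [DX_eq]
    have := hc.d8
    omega
  · intro l hl hlW hl2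
    rw [DX_eq]
    have hlw : l ≤ w := by
      unfold PP5LB.Wf at hlW
      rcases (hl.dvd_mul).1 hlW with h | h
      · exfalso
        have h4 : l ∣ 2 ^ 2 := by simpa using h
        exact hl2 ((Nat.prime_dvd_prime_iff_eq hl Nat.prime_two).1 (hl.dvd_of_dvd_pow h4))
      · exact (hl.dvd_primorial_iff).1 h
    exact ZMod.nonsquare_of_jacobiSym_eq_neg_one (hc.dp l hl hl2 hlw)

open Classical in
theorem stH {δc A : ℝ} (hCel : StCel) (hδc : 0 < δc) (hA : 2 ≤ A) : StH δc A := by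
  obtain ⟨C0, hC0, hcl⟩ := PP5LH.clG 2 (by norm_num)
  obtain ⟨c3, C, T0, hc3, hC, hT0, hcc⟩ := PP5LH.ccA δc A (1 / 300) C0 hδc (by linarith)
    (by norm_num) hC0
  obtain ⟨hX, hCel⟩ := hCel
  refine ⟨c3, C, 1000 + hX, hc3, ?_⟩
  intro w c hw hc h hh
  have hA1 : 1 ≤ PP5LB.Ah h xs 1 := by
    simp only [PP5LB.Ah, xs]
    norm_num
    omega
  obtain ⟨r1, hr1⟩ := PP5LB.eq2le (PP5LB.Ah h xs) hA1 w
  refine ⟨1 + r1 + h ^ 5 + ⌈T0⌉₊ + 62208, ?_⟩
  intro r hr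
  have hh1 : (1000 : ℝ) ≤ h := by exact_mod_cast (by omega : 1000 ≤ h)
  have hr1' : (1 : ℝ) ≤ r := by exact_mod_cast (by omega : 1 ≤ r)
  have hr62 : (62208 : ℝ) ≤ r := by exact_mod_cast (by omega : 62208 ≤ r)
  have hrT : T0 ≤ r := by
    have h1 : ⌈T0⌉₊ ≤ r := by omega
    exact (Nat.le_ceil T0).trans (by exact_mod_cast h1)
  have hrh : (h : ℝ) ^ 5 ≤ r := by exact_mod_cast (by omega : h ^ 5 ≤ r)
  have hrR : (r : ℝ) ≤ h * r := by nlinarith
  have hR1 : (1 : ℝ) ≤ h * r := by linarith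
  have hR0 : (0 : ℝ) < h * r := by linarith
  have hTR : (h * r : ℝ) ≤ (h * r : ℝ) ^ (5 / 2 : ℝ) := by
    calc (h * r : ℝ) = (h * r : ℝ) ^ (1 : ℝ) := (Real.rpow_one _).symm
      _ ≤ _ := Real.rpow_le_rpow_of_exponent_le hR1 (by norm_num)
  obtain ⟨Θ, hΘ0, hΘ1, hΘ2⟩ := hcc ((h * r : ℝ) ^ (5 / 2 : ℝ)) (by linarith)
  refine ⟨Θ, ⟨hΘ0, hΘ1⟩, ?_⟩
  have hlev : ((h * r : ℝ) ^ (5 / 2 : ℝ)) ^ (1 / 300 : ℝ) ≤ (r : ℝ) ^ (1 / 100 : ℝ) := by
    rw [← Real.rpow_mul hR0.le]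
    have hr0 : (0 : ℝ) < r := by linarith
    have hh0 : (0 : ℝ) < h := by linarith
    rw [Real.mul_rpow hh0.le hr0.le]
    have e1 : (h : ℝ) ^ (5 / 2 * (1 / 300) : ℝ) ≤ (r : ℝ) ^ (1 / 600 : ℝ) := by
      calc (h : ℝ) ^ (5 / 2 * (1 / 300) : ℝ) = ((h : ℝ) ^ 5) ^ (1 / 600 : ℝ) := by
            rw [← Real.rpow_natCast, ← Real.rpow_mul hh0.le]
            norm_num
        _ ≤ (r : ℝ) ^ (1 / 600 : ℝ) := Real.rpow_le_rpow (by positivity) hrh (by norm_num)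
    calc (h : ℝ) ^ (5 / 2 * (1 / 300) : ℝ) * (r : ℝ) ^ (5 / 2 * (1 / 300) : ℝ)
        ≤ (r : ℝ) ^ (1 / 600 : ℝ) * (r : ℝ) ^ (5 / 2 * (1 / 300) : ℝ) := by gcongr
      _ = (r : ℝ) ^ (1 / 100 : ℝ) := by
        rw [← Real.rpow_add hr0]
        norm_num
  apply hΘ2
  · exact Nat.cast_nonneg _
  · apply hcl (PP5LB.Wf w) c 0 (famG hc) _ _ _ (by linarith) (Nat.cast_nonneg _)
    · intro x hx
      refine ⟨(fm_ff hx).1, uni_pr (fm_ff hx).2, ?_⟩
      intro i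
      have h1 : PP5LB.red (PP5LB.Wf w) x = PP5LB.red (PP5LB.Wf w) c := by
        unfold Fm PP5LB.XC at hx
        exact (Finset.mem_filter.1 hx).2
      have h2 := congrFun h1 i
      unfold PP5LB.red at h2
      exact (ZMod.intCast_eq_intCast_iff_dvd_sub _ _ _).1 h2.symm
    · intro n y hn hnW hnT S' hS' hy
      haveI : NeZero n := ⟨by omega⟩
      have h1 := hr1 r (by omega) (PP5LB.red (PP5LB.Wf w) c) (PP5LB.res_mem hc) n hnW.symm
        (hnT.trans hlev) (PP5LB.red n y)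
      have h2 : S' ⊆ (PP5LB.XC (PP5LB.Ah h xs) r (PP5LB.Wf w) (PP5LB.red (PP5LB.Wf w) c)).filter
          (fun x => PP5LB.red n x = PP5LB.red n y) := by
        intro x hx
        rw [Finset.mem_filter]
        refine ⟨hS' hx, ?_⟩
        funext i
        unfold PP5LB.red
        exact ((ZMod.intCast_eq_intCast_iff_dvd_sub _ _ _).2 (hy x hx i)).symm
      have h3 : (S'.card : ℝ) ≤ 2 * (Fm h w c r).card / ((Nat.totient n : ℝ) * (n : ℝ) ^ 8) := by
        refine le_trans ?_ h1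
        exact_mod_cast Finset.card_le_card h2
      have h4 : (1 : ℝ) ≤ (PP5C.s1 (PP5C.gx n 0 y) : ℝ) := by
        have h5 : PP5C.gx n 0 y ≠ 0 := (Nat.gcd_pos_of_pos_left _ (by omega)).ne'
        have h6 : 1 ≤ PP5C.s1 (PP5C.gx n 0 y) := by
          unfold PP5C.s1
          calc 1 = ∑ e ∈ ({1} : Finset ℕ), e := by simp
            _ ≤ _ := Finset.sum_le_sum_of_subset (by
              intro e he
              rw [Finset.mem_singleton] at he
              rw [he]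
              exact Nat.one_mem_divisors.2 h5)
        exact_mod_cast h6
      have h7 : 0 ≤ 2 * ((Fm h w c r).card / ((Nat.totient n : ℝ) * (n : ℝ) ^ 8)) := by positivity
      calc (S'.card : ℝ) ≤ 2 * (Fm h w c r).card / ((Nat.totient n : ℝ) * (n : ℝ) ^ 8) := h3
        _ = 2 * ((Fm h w c r).card / ((Nat.totient n : ℝ) * (n : ℝ) ^ 8)) * 1 := by ring
        _ ≤ _ := mul_le_mul_of_nonneg_left h4 h7
  · intro x hx
    obtain ⟨e1, e2, -, -⟩ := hCel h w r c x (by omega) (by omega) hx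
    obtain ⟨e3, -⟩ := cell_facts (by omega : 1000 ≤ h) (by omega : 1 ≤ r) e1
    have h4 : 0 < (h * r : ℝ) ^ 4 := by positivity
    constructor
    · rw [DX_eq]
      intro h0
      rw [h0] at e2
      push_cast at e2
      linarith
    · have h5 := DD_le hR0.le e3
      have h6 : (PP5C.D2 x : ℝ) = 2 * |((PP5LB.DD x : ℤ) : ℝ)| := by
        unfold PP5C.D2
        rw [DX_eq]
        push_cast
        rw [Nat.cast_natAbs]
        push_cast
        rfl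
      rw [h6]
      calc 2 * |((PP5LB.DD x : ℤ) : ℝ)| ≤ 2 * (24 * (6 * (h * r : ℝ)) ^ 4) := by gcongr
        _ = 62208 * (h * r : ℝ) ^ 4 := by ring
        _ ≤ (h * r : ℝ) * (h * r : ℝ) ^ 4 := by
          apply mul_le_mul_of_nonneg_right _ h4.le
          linarith
        _ = (h * r : ℝ) ^ (5 : ℝ) := by
          rw [show (5 : ℝ) = ((5 : ℕ) : ℝ) by norm_num, Real.rpow_natCast]
          ring
        _ = ((h * r : ℝ) ^ (5 / 2 : ℝ)) ^ (2 : ℝ) := by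
          rw [← Real.rpow_mul hR0.le]
          norm_num
        _ ≤ _ := Real.rpow_le_rpow_of_exponent_le (by linarith) hA

end Pool.Agent.LB
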