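import Pool.Agent.LB.Rmv
import Pool.Agent.PP5LB.Eq2
import Pool.Agent.PP5LB.Nce

/-!
# LB5, G: `StY` from helper24's equidistribution
-/

set_option autoImplicit false

namespace Pool.Agent.LB

open Finset

private theorem yeq_cop {w q : ℕ} (hq : q.Prime) (hq2 : q ≠ 2) (h : w < q) :
    Nat.Coprime (PP5LB.Wf w) q := by
  rw [Nat.coprime_comm, hq.coprime_iff_not_dvd]
  intro hd
  unfold PP5LB.Wf at hd
  rcases hq.dvd_mul.1 hd with h4 | h1
  · have : q ∣ 2 ^ 2 := by norm_num; exact h4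
    exact hq2 ((Nat.prime_dvd_prime_iff_eq hq Nat.prime_two).1 (hq.dvd_of_dvd_pow this))
  · have := (hq.dvd_primorial_iff).1 h1
    omega

theorem stEq : StEq 4 := by
  classical
  refine ⟨1, fun w c hw hres h hh => ?_⟩
  have hA : 1 ≤ PP5LB.Ah h xs 1 := by
    simp only [PP5LB.Ah, xs]
    simp
    omega
  obtain ⟨r0, hr0⟩ := PP5LB.eq2le (PP5LB.Ah h xs) hA w
  refine ⟨r0, fun r hr q hq hwq hqr y => ?_⟩
  have : NeZero q := ⟨hq.ne_zero⟩
  have h1 := hr0 r hr (PP5LB.red (PP5LB.Wf w) c) (PP5LB.res_mem hres) q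
    (yeq_cop hq (by omega) hwq) hqr y
  have hq0 : (0 : ℝ) < (q : ℝ) := by exact_mod_cast hq.pos
  have hphi : (q : ℝ) / 2 ≤ (Nat.totient q : ℝ) := by
    rw [Nat.totient_prime hq]
    have : 2 ≤ q := hq.two_le
    rw [Nat.cast_sub (by omega)]
    have : (2 : ℝ) ≤ (q : ℝ) := by exact_mod_cast this
    push_cast
    linarith
  have hphi0 : (0 : ℝ) < (Nat.totient q : ℝ) := lt_of_lt_of_le (by positivity) hphi
  have h2 : ((((Fm h w c r).filter (fun x => PP5LB.red q x = y)).card : ℝ)) ≤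
      2 * (Fm h w c r).card / ((Nat.totient q : ℝ) * (q : ℝ) ^ 8) := by
    unfold Fm
    convert h1
  calc ((((Fm h w c r).filter (fun x => PP5LB.red q x = y)).card : ℝ)) * (q : ℝ) ^ 9
      ≤ (2 * (Fm h w c r).card / ((Nat.totient q : ℝ) * (q : ℝ) ^ 8)) * (q : ℝ) ^ 9 :=
        mul_le_mul_of_nonneg_right h2 (by positivity)
    _ = (2 * (Fm h w c r).card) * ((q : ℝ) / (Nat.totient q : ℝ)) := by
        field_simp
    _ ≤ (2 * (Fm h w c r).card) * 2 := by
        apply mul_le_mul_of_nonneg_left _ (by positivity)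
        rw [div_le_iff₀ hphi0]
        linarith
    _ = 4 * (Fm h w c r).card := by ring

theorem stYf : StY := stY stEq

end Pool.Agent.LB
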