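import Pool.Agent.LB.StPg
import Pool.Agent.LB.StHa
import Pool.Agent.LB.Loc
import Pool.Agent.LB.B12
import Pool.Agent.LB.Yeq
import Pool.Agent.LB0.Main
import Pool.Agent.PP5LC.Main
import Pool.Agent.PP5LG.Fin
import Pool.Agent.PP5LZ.Fin
import Pool.Agent.PP5LA.Fin

/-!
# LB5: the assembly of `StP` (helper12)
-/

set_option autoImplicit false

namespace Pool.Agent.LB

theorem stPd (hD : StD) : StP :=
  stP (δc := 1 / 50) (A := 2) stLoc stCel stB1 stB2 stL0 PP5LC.stC hD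
    (stH stCel (by norm_num) le_rfl) PP5LZ.stZ (PP5LA.stA stCel)
    (PP5LG.stG stCel PP5LC.stC stYf PP5LZ.stZ) stG0

end Pool.Agent.LB
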