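import Pool.Agent.LB.Defs
import Pool.Agent.FTA.Main
import Pool.Agent.FTL.LSr

/-!
# LB5: from the classes (`StF`) to the lower bound for the average of the number of surjections
-/

set_option autoImplicit false

namespace Pool.Agent.LB

open Pool.Agent.FTA Pool.Agent.FTL NumberField

private theorem sur_low (x : ℕ) (H : Type) [CommGroup H] (hH : Nat.card H = 5) :
    ∑ᶠ K ∈ IQ x, ((Nat.card {c : ClassGroup (𝓞 K) // c ^ 5 = 1} : ℝ) - 1) ≤
    ∑ᶠ K ∈ IQ x, (Nat.card {f : ↥(Subgroup.closure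
      {g : ClassGroup (𝓞 K) | ∃ n : ℕ, g ^ (5 ^ n) = 1}) →* H // Function.Surjective f} : ℝ) := by
  rw [finsum_mem_eq_finite_toFinset_sum _ (famFin _), finsum_mem_eq_finite_toFinset_sum _
    (famFin _)]
  apply Finset.sum_le_sum
  intro K hK
  rw [Set.Finite.mem_toFinset] at hK
  obtain ⟨hn, -⟩ := id hK
  have hfin : Finite (ClassGroup (𝓞 K)) := inferInstance
  have h := lsr 5 (by norm_num) (ClassGroup (𝓞 K)) H hH
  have h' : (Nat.card {c : ClassGroup (𝓞 K) // c ^ 5 = 1} : ℝ) ≤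
      (Nat.card {f : ↥(Subgroup.closure
        {g : ClassGroup (𝓞 K) | ∃ n : ℕ, g ^ (5 ^ n) = 1}) →* H // Function.Surjective f} : ℝ)
        + 1 := by
    exact_mod_cast h
  linarith

/-- the lower bound for the average of the number of surjections -/
theorem topLow (hF : StF) (H : Type) [CommGroup H] (hH : Nat.card H = 5) :
    ∃ c X0 : ℝ, 0 < c ∧ ∀ X : ℝ, X0 ≤ X → c ≤
      (∑ᶠ K ∈ {K : IntermediateField ℚ ℂ | ∃ _ : NumberField K, Module.finrank ℚ K = 2 ∧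
        (∃ x : K, (x : ℂ).im ≠ 0) ∧ |((NumberField.discr K : ℤ) : ℝ)| ≤ X},
        (Nat.card {f : ↥(Subgroup.closure
          {g : ClassGroup (NumberField.RingOfIntegers K) | ∃ n : ℕ, g ^ (5 ^ n) = 1}) →* H //
            Function.Surjective f} : ℝ)) /
        ({K : IntermediateField ℚ ℂ | ∃ _ : NumberField K, Module.finrank ℚ K = 2 ∧
          (∃ x : K, (x : ℂ).im ≠ 0) ∧ |((NumberField.discr K : ℤ) : ℝ)| ≤ X}).ncard := by
  obtain ⟨c, X0, hc, h⟩ := hF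
  refine ⟨c, max X0 1, hc, fun X hX => ?_⟩
  have hX0 : X0 ≤ X := (le_max_left _ _).trans hX
  have hX1 : (1 : ℝ) ≤ X := (le_max_right _ _).trans hX
  have h1 := h X hX0
  rw [set_eq X (by linarith)] at h1 ⊢
  have h2 := h1.trans (sur_low ⌊X⌋₊ H hH)
  have hN2 : ((IQ ⌊X⌋₊).ncard : ℝ) ≤ X := by
    have h3 := famCard ⌊X⌋₊
    have h4 : ((IQ ⌊X⌋₊).ncard : ℝ) ≤ (⌊X⌋₊ : ℝ) := by exact_mod_cast h3
    have h5 : (⌊X⌋₊ : ℝ) ≤ X := Nat.floor_le (by linarith)
    linarith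
  rcases Nat.eq_zero_or_pos (IQ ⌊X⌋₊).ncard with h0 | h0
  · exfalso
    have h3 : IQ ⌊X⌋₊ = ∅ := (Set.ncard_eq_zero (famFin _)).1 h0
    rw [h3, finsum_mem_empty] at h2
    nlinarith
  · have h0' : (0 : ℝ) < ((IQ ⌊X⌋₊).ncard : ℝ) := by exact_mod_cast h0
    rw [le_div_iff₀ h0']
    exact (mul_le_mul_of_nonneg_left hN2 hc.le).trans h2

end Pool.Agent.LB
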