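import Pool.Agent.LB.FinF
import Pool.Agent.LB.D
import Pool.Agent.LB.Top
import Pool.Agent.PP5.E2Fin
import Pool.Agent.PP5S.DPall
import Pool.Agent.PP5S.Fin

/-!
# LB5: the two-sided bound for the average of the number of surjections (helper12)
-/

set_option autoImplicit false

namespace Pool.Agent.LB

open NumberField

theorem two_sided (H : Type) [CommGroup H] (hH : Nat.card H = 5) :
    ∃ b B X0 : ℝ, 0 < b ∧ ∀ X : ℝ, X0 ≤ X →
      ({K : IntermediateField ℚ ℂ | ∃ _ : NumberField K, Module.finrank ℚ K = 2 ∧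
        (∃ x : K, (x : ℂ).im ≠ 0) ∧ |((NumberField.discr K : ℤ) : ℝ)| ≤ X}).Finite ∧
      b ≤
      (∑ᶠ K ∈ {K : IntermediateField ℚ ℂ | ∃ _ : NumberField K, Module.finrank ℚ K = 2 ∧
        (∃ x : K, (x : ℂ).im ≠ 0) ∧ |((NumberField.discr K : ℤ) : ℝ)| ≤ X},
        (Nat.card {f : ↥(Subgroup.closure
          {g : ClassGroup (NumberField.RingOfIntegers K) | ∃ n : ℕ, g ^ (5 ^ n) = 1}) →* H //
            Function.Surjective f} : ℝ)) /
        ({K : IntermediateField ℚ ℂ | ∃ _ : NumberField K, Module.finrank ℚ K = 2 ∧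
          (∃ x : K, (x : ℂ).im ≠ 0) ∧ |((NumberField.discr K : ℤ) : ℝ)| ≤ X}).ncard ∧
      (∑ᶠ K ∈ {K : IntermediateField ℚ ℂ | ∃ _ : NumberField K, Module.finrank ℚ K = 2 ∧
        (∃ x : K, (x : ℂ).im ≠ 0) ∧ |((NumberField.discr K : ℤ) : ℝ)| ≤ X},
        (Nat.card {f : ↥(Subgroup.closure
          {g : ClassGroup (NumberField.RingOfIntegers K) | ∃ n : ℕ, g ^ (5 ^ n) = 1}) →* H //
            Function.Surjective f} : ℝ)) /
        ({K : IntermediateField ℚ ℂ | ∃ _ : NumberField K, Module.finrank ℚ K = 2 ∧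
          (∃ x : K, (x : ℂ).im ≠ 0) ∧ |((NumberField.discr K : ℤ) : ℝ)| ≤ X}).ncard ≤ B := by
  obtain ⟨c, C, hc, hC, h⟩ := Pool.Agent.PP5S.box_fin Pool.Agent.PP5S.dp_all
  obtain ⟨b, X1, hb, h1⟩ := topLow (stFd stD (Pool.Agent.PP5.tot' hc one_pos hC h)) H hH
  obtain ⟨B, h2⟩ := Pool.Agent.PP5.fin5' hc one_pos hC h H hH
  obtain ⟨X2, h2⟩ := h2 1 one_pos
  refine ⟨b, B, max X1 X2, hb, fun X hX => ?_⟩
  obtain ⟨h3, -, h4⟩ := h2 X ((le_max_right _ _).trans hX)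
  exact ⟨h3, h1 X ((le_max_left _ _).trans hX), h4⟩

end Pool.Agent.LB
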