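import Pool.Agent.LB.DefsY
import Pool.Agent.PP5LN.ImC

/-!
# LB5, G: the removed set (Markov's inequality)
-/

set_option autoImplicit false

namespace Pool.Agent.LB

open Finset Pool.Agent.PP5LN

/-- `n^(-4/3) ≤ 3 ((n-1)^(-1/3) - n^(-1/3))` -/
private theorem rmv_tel {a b : ℝ} (ha : 0 < a) (hb : b = a + 1) :
    b ^ (-(4 / 3) : ℝ) ≤ 3 * (a ^ (-(1 / 3) : ℝ) - b ^ (-(1 / 3) : ℝ)) := by
  have hb0 : 0 < b := by linarith
  set s : ℝ := a ^ (1 / 3 : ℝ) with hs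
  set t : ℝ := b ^ (1 / 3 : ℝ) with ht
  have hs0 : 0 < s := Real.rpow_pos_of_pos ha _
  have ht0 : 0 < t := Real.rpow_pos_of_pos hb0 _
  have hs3 : s ^ 3 = a := by
    rw [hs, ← Real.rpow_natCast, ← Real.rpow_mul ha.le]; norm_num
  have ht3 : t ^ 3 = b := by
    rw [ht, ← Real.rpow_natCast, ← Real.rpow_mul hb0.le]; norm_num
  have hst : s ≤ t := Real.rpow_le_rpow ha.le (by linarith) (by norm_num)
  have e1 : a ^ (-(1 / 3) : ℝ) = s⁻¹ := by rw [Real.rpow_neg ha.le]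
  have e2 : b ^ (-(1 / 3) : ℝ) = t⁻¹ := by rw [Real.rpow_neg hb0.le]
  have e3 : b ^ (-(4 / 3) : ℝ) = (t ^ 4)⁻¹ := by
    rw [Real.rpow_neg hb0.le, ht, ← Real.rpow_natCast, ← Real.rpow_mul hb0.le]
    norm_num
  rw [e1, e2, e3]
  have h1 : t ^ 3 - s ^ 3 = 1 := by rw [hs3, ht3, hb]; ring
  have h2 : 1 ≤ 3 * (t - s) * t ^ 2 := by
    nlinarith [mul_nonneg (sub_nonneg.2 hst) (mul_nonneg (sub_nonneg.2 hst) ht0.le),
      mul_nonneg (sub_nonneg.2 hst) (mul_nonneg (sub_nonneg.2 hst) hs0.le)]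
  have h3 : (t ^ 4)⁻¹ ≤ 3 * (t - s) * t ^ 2 * (t ^ 4)⁻¹ := by
    have : 0 < (t ^ 4)⁻¹ := by positivity
    nlinarith
  refine h3.trans ?_
  have h4 : 3 * (t - s) * t ^ 2 * (t ^ 4)⁻¹ = 3 * ((t - s) / t ^ 2) := by
    field_simp
  have h5 : s⁻¹ - t⁻¹ = (t - s) / (s * t) := by
    field_simp
  rw [h4, h5]
  have h6 : (t - s) / t ^ 2 ≤ (t - s) / (s * t) := by
    apply div_le_div_of_nonneg_left (sub_nonneg.2 hst) (by positivity)
    nlinarith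
  linarith

private theorem rmv_sum (w : ℕ) (hw : 1 ≤ w) (M : ℕ) :
    ∑ n ∈ Ioc w M, (n : ℝ) ^ (-(4 / 3) : ℝ) ≤ 3 * (w : ℝ) ^ (-(1 / 3) : ℝ) := by
  have key : ∀ k : ℕ, ∑ n ∈ Ioc w (w + k), (n : ℝ) ^ (-(4 / 3) : ℝ) ≤
      3 * ((w : ℝ) ^ (-(1 / 3) : ℝ) - ((w + k : ℕ) : ℝ) ^ (-(1 / 3) : ℝ)) := by
    intro k
    induction k with
    | zero => simp
    | succ k ih =>
      rw [← add_assoc, Finset.sum_Ioc_succ_top (by omega : w ≤ w + k)]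
      have h1 := rmv_tel (a := ((w + k : ℕ) : ℝ)) (b := ((w + k + 1 : ℕ) : ℝ))
        (by exact_mod_cast (by omega : 0 < w + k)) (by push_cast; ring)
      linarith
  have h0 : (0 : ℝ) ≤ 3 * (w : ℝ) ^ (-(1 / 3) : ℝ) := by positivity
  rcases le_or_gt w M with h | h
  · obtain ⟨k, rfl⟩ := Nat.exists_eq_add_of_le h
    refine (key k).trans ?_
    have : (0 : ℝ) ≤ ((w + k : ℕ) : ℝ) ^ (-(1 / 3) : ℝ) := by positivity
    linarith
  · rw [Ioc_eq_empty (by omega)]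
    simpa using h0

open Classical in
private theorem rmv_Np (p : ℕ) [Fact p.Prime] (x : V10) :
    Np p x = ((Sim (ZMod p)).filter (fun P => P ≠ 0 ∧ InR P (PP5LB.red p x))).card := by
  unfold Np
  rw [← Set.ncard_coe_finset]
  congr 1
  ext P
  simp only [Set.mem_ofPred_eq, coe_filter, mem_Sim]
  tauto

/-- the sum over the family of the numbers of improper points -/
private theorem rmv_avg {C0 : ℝ} (hC0 : 0 ≤ C0) (X : Finset V10) (p : ℕ) (hp : p.Prime)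
    (h : ∀ y : Fin 10 → ZMod p,
      ((X.filter (fun x => PP5LB.red p x = y)).card : ℝ) * (p : ℝ) ^ 9 ≤ C0 * X.card) :
    ∑ x ∈ X, (Np p x : ℝ) ≤ 18 * C0 * X.card * p := by
  classical
  have : Fact p.Prime := ⟨hp⟩
  have hp0 : (0 : ℝ) < (p : ℝ) := by exact_mod_cast hp.pos
  set B : ℕ := ⌊C0 * X.card / (p : ℝ) ^ 9⌋₊ with hB
  have hB1 : ∀ y : Fin 10 → ZMod p, (X.filter (fun x => PP5LB.red p x = y)).card ≤ B := by
    intro y
    apply Nat.le_floor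
    rw [le_div_iff₀ (by positivity)]
    exact h y
  have h1 := nim_sum (F := ZMod p) X (fun x => PP5LB.red p x) B (by
    intro y
    convert hB1 y)
  have h2 : ∑ x ∈ X, Np p x ≤ 18 * B * p ^ 10 := by
    rw [ZMod.card] at h1
    refine le_trans (le_of_eq ?_) h1
    apply sum_congr rfl
    intro x _
    rw [rmv_Np]
    congr!
  have h3 : (B : ℝ) ≤ C0 * X.card / (p : ℝ) ^ 9 := Nat.floor_le (by positivity)
  calc ∑ x ∈ X, (Np p x : ℝ) = ((∑ x ∈ X, Np p x : ℕ) : ℝ) := by push_cast; rfl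
    _ ≤ ((18 * B * p ^ 10 : ℕ) : ℝ) := by exact_mod_cast h2
    _ = 18 * (B : ℝ) * (p : ℝ) ^ 10 := by push_cast; ring
    _ ≤ 18 * (C0 * X.card / (p : ℝ) ^ 9) * (p : ℝ) ^ 10 := by
        have : (0 : ℝ) ≤ (p : ℝ) ^ 10 := by positivity
        nlinarith
    _ = 18 * C0 * X.card * p := by field_simp

theorem stY {C0 : ℝ} (hEq : StEq C0) : StY := by
  classical
  obtain ⟨h0, hEq⟩ := hEq
  set C1 : ℝ := max C0 0 with hC1
  have hC1n : 0 ≤ C1 := le_max_right _ _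
  refine ⟨54 * C1, h0, fun w c hw hres h hh => ?_⟩
  obtain ⟨r0, hEq⟩ := hEq w c hw hres h hh
  refine ⟨r0, fun r hr => ?_⟩
  have hEq := hEq r hr
  set X := Fm h w c r with hX
  set S : Finset ℕ := (Ioc w ⌊(r : ℝ) ^ (1 / 100 : ℝ)⌋₊).filter Nat.Prime with hS
  set f : V10 → ℝ := fun x => ∑ p ∈ S, (Np p x : ℝ) * (p : ℝ) ^ (-(7 / 3) : ℝ) with hf
  have hw0 : (0 : ℝ) < (w : ℝ) := by exact_mod_cast (by omega : 0 < w)
  have hmem : ∀ p ∈ S, p.Prime ∧ w < p ∧ (p : ℝ) ≤ (r : ℝ) ^ (1 / 100 : ℝ) := by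
    intro p hp
    rw [hS, mem_filter, mem_Ioc] at hp
    exact ⟨hp.2, hp.1.1, (Nat.le_floor_iff (by positivity)).1 hp.1.2⟩
  have hfn : ∀ x, 0 ≤ f x := fun x => sum_nonneg fun p _ => by positivity
  -- the average
  have havg : ∑ x ∈ X, f x ≤ 54 * C1 * X.card * (w : ℝ) ^ (-(1 / 3) : ℝ) := by
    rw [hf, sum_comm]
    have h1 : ∀ p ∈ S, ∑ x ∈ X, (Np p x : ℝ) * (p : ℝ) ^ (-(7 / 3) : ℝ) ≤
        18 * C1 * X.card * (p : ℝ) ^ (-(4 / 3) : ℝ) := by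
      intro p hp
      obtain ⟨hp1, hp2, hp3⟩ := hmem p hp
      have hp0 : (0 : ℝ) < (p : ℝ) := by exact_mod_cast hp1.pos
      rw [← sum_mul]
      have h2 := rmv_avg (C0 := C1) hC1n X p hp1 (fun y => by
        refine le_trans ?_ (mul_le_mul_of_nonneg_right (le_max_left C0 0) (Nat.cast_nonneg _))
        convert hEq p hp1 hp2 hp3 y)
      calc (∑ x ∈ X, (Np p x : ℝ)) * (p : ℝ) ^ (-(7 / 3) : ℝ)
          ≤ (18 * C1 * X.card * p) * (p : ℝ) ^ (-(7 / 3) : ℝ) :=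
            mul_le_mul_of_nonneg_right h2 (by positivity)
        _ = 18 * C1 * X.card * ((p : ℝ) ^ (1 : ℝ) * (p : ℝ) ^ (-(7 / 3) : ℝ)) := by
            rw [Real.rpow_one]; ring
        _ = 18 * C1 * X.card * (p : ℝ) ^ (-(4 / 3) : ℝ) := by
            rw [← Real.rpow_add hp0]; norm_num
    refine (sum_le_sum h1).trans ?_
    rw [← mul_sum]
    have h3 : ∑ p ∈ S, (p : ℝ) ^ (-(4 / 3) : ℝ) ≤ 3 * (w : ℝ) ^ (-(1 / 3) : ℝ) := by
      refine le_trans ?_ (rmv_sum w (by omega) ⌊(r : ℝ) ^ (1 / 100 : ℝ)⌋₊)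
      exact sum_le_sum_of_subset_of_nonneg (filter_subset _ _) (fun _ _ _ => by positivity)
    calc 18 * C1 * X.card * ∑ p ∈ S, (p : ℝ) ^ (-(4 / 3) : ℝ)
        ≤ 18 * C1 * X.card * (3 * (w : ℝ) ^ (-(1 / 3) : ℝ)) :=
          mul_le_mul_of_nonneg_left h3 (by positivity)
      _ = 54 * C1 * X.card * (w : ℝ) ^ (-(1 / 3) : ℝ) := by ring
  -- the removed set
  refine ⟨X.filter (fun x => (w : ℝ) ^ (-(1 / 6) : ℝ) < f x), filter_subset _ _, ?_, ?_⟩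
  · set Y := X.filter (fun x => (w : ℝ) ^ (-(1 / 6) : ℝ) < f x) with hY
    have hwp : (0 : ℝ) < (w : ℝ) ^ (-(1 / 6) : ℝ) := Real.rpow_pos_of_pos hw0 _
    have h1 : (Y.card : ℝ) * (w : ℝ) ^ (-(1 / 6) : ℝ) ≤ ∑ x ∈ X, f x := by
      calc (Y.card : ℝ) * (w : ℝ) ^ (-(1 / 6) : ℝ) = ∑ x ∈ Y, (w : ℝ) ^ (-(1 / 6) : ℝ) := by
            rw [sum_const, nsmul_eq_mul]
        _ ≤ ∑ x ∈ Y, f x := sum_le_sum fun x hx => (mem_filter.1 hx).2.le
        _ ≤ ∑ x ∈ X, f x := sum_le_sum_of_subset_of_nonneg (filter_subset _ _) (fun x _ _ => hfn x)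
    have h2 : (w : ℝ) ^ (-(1 / 3) : ℝ) = (w : ℝ) ^ (-(1 / 6) : ℝ) * (w : ℝ) ^ (-(1 / 6) : ℝ) := by
      rw [← Real.rpow_add hw0]; norm_num
    have h3 : (Y.card : ℝ) * (w : ℝ) ^ (-(1 / 6) : ℝ) ≤
        (54 * C1 * (w : ℝ) ^ (-(1 / 6) : ℝ) * X.card) * (w : ℝ) ^ (-(1 / 6) : ℝ) := by
      refine h1.trans (havg.trans (le_of_eq ?_))
      rw [h2]; ring
    exact le_of_mul_le_mul_right h3 hwp
  · intro x hx hxY
    by_contra hcon
    push Not at hcon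
    exact hxY (mem_filter.2 ⟨hx, hcon⟩)

end Pool.Agent.LB
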