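import Pool.Agent.FTA.DivB

/-!
# LB/StPa: the sums over `k > w` and over the primes `p > w` (helper12)
-/

set_option autoImplicit false

namespace Pool.Agent.LB

open Finset

private theorem stpa_step (k : ℕ) (hk : 1 ≤ k) :
    ((k + 1 : ℕ) : ℝ) ^ (-(5 / 4) : ℝ) ≤
      4 * ((k : ℝ) ^ (-(1 / 4) : ℝ) - ((k + 1 : ℕ) : ℝ) ^ (-(1 / 4) : ℝ)) := by
  have hk0 : (0 : ℝ) < k := by exact_mod_cast hk
  have hk1 : (0 : ℝ) < ((k + 1 : ℕ) : ℝ) := by positivity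
  set a := (k : ℝ) ^ (-(1 / 4) : ℝ) with ha
  set b := ((k + 1 : ℕ) : ℝ) ^ (-(1 / 4) : ℝ) with hb
  have ha0 : 0 < a := Real.rpow_pos_of_pos hk0 _
  have hb0 : 0 < b := Real.rpow_pos_of_pos hk1 _
  have hab : b ≤ a := by
    apply Real.rpow_le_rpow_of_nonpos hk0 _ (by norm_num)
    push_cast
    linarith
  have ha4 : a ^ 4 * k = 1 := by
    have : a ^ 4 = (k : ℝ) ^ (-1 : ℝ) := by
      rw [ha, ← Real.rpow_natCast, ← Real.rpow_mul hk0.le]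
      norm_num
    rw [this, Real.rpow_neg_one]
    field_simp
  have hb4 : b ^ 4 * ((k + 1 : ℕ) : ℝ) = 1 := by
    have : b ^ 4 = ((k + 1 : ℕ) : ℝ) ^ (-1 : ℝ) := by
      rw [hb, ← Real.rpow_natCast, ← Real.rpow_mul hk1.le]
      norm_num
    rw [this, Real.rpow_neg_one]
    field_simp
  have hb5 : ((k + 1 : ℕ) : ℝ) ^ (-(5 / 4) : ℝ) = b ^ 5 := by
    rw [hb, ← Real.rpow_natCast, ← Real.rpow_mul hk1.le]
    norm_num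
  rw [hb5]
  push_cast at hb4
  -- a^4 - b^4 = a^4 b^4
  have h1 : a ^ 4 - b ^ 4 = a ^ 4 * b ^ 4 := by
    have e1 : b ^ 4 * (a ^ 4 * k) + b ^ 4 * a ^ 4 = a ^ 4 := by
      calc b ^ 4 * (a ^ 4 * k) + b ^ 4 * a ^ 4 = a ^ 4 * (b ^ 4 * (k + 1)) := by ring
        _ = a ^ 4 := by rw [hb4, mul_one]
    rw [ha4] at e1
    linarith
  have h2 : a ^ 4 - b ^ 4 ≤ (a - b) * (4 * a ^ 3) := by
    have : a ^ 4 - b ^ 4 = (a - b) * (a ^ 3 + a ^ 2 * b + a * b ^ 2 + b ^ 3) := by ring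
    rw [this]
    apply mul_le_mul_of_nonneg_left _ (by linarith)
    have e1 : a ^ 2 * b ≤ a ^ 3 := by nlinarith [sq_nonneg a]
    have e2 : a * b ^ 2 ≤ a ^ 3 := by nlinarith [sq_nonneg a, mul_nonneg ha0.le hb0.le]
    have e3 : b ^ 3 ≤ a ^ 3 := pow_le_pow_left₀ hb0.le hab 3
    linarith
  rw [h1] at h2
  have h3 : a * b ^ 4 ≤ 4 * (a - b) := by
    have h4 : a ^ 3 * (a * b ^ 4) ≤ a ^ 3 * (4 * (a - b)) := by nlinarith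
    exact le_of_mul_le_mul_left h4 (by positivity)
  have h5 : b ^ 5 ≤ a * b ^ 4 := by
    calc b ^ 5 = b * b ^ 4 := by ring
      _ ≤ a * b ^ 4 := mul_le_mul_of_nonneg_right hab (by positivity)
  linarith

/-- `∑_{w < k ≤ K} k ^ (-5/4) ≤ 4 w ^ (-1/4)` -/
theorem sum54 (w K : ℕ) (hw : 1 ≤ w) :
    ∑ k ∈ Ioc w K, (k : ℝ) ^ (-(5 / 4) : ℝ) ≤ 4 * (w : ℝ) ^ (-(1 / 4) : ℝ) := by
  rcases le_total K w with h | h
  · rw [Finset.Ioc_eq_empty_of_le h, Finset.sum_empty]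
    positivity
  · have key : ∀ n : ℕ, ∑ k ∈ Ioc w (w + n), (k : ℝ) ^ (-(5 / 4) : ℝ) ≤
        4 * ((w : ℝ) ^ (-(1 / 4) : ℝ) - ((w + n : ℕ) : ℝ) ^ (-(1 / 4) : ℝ)) := by
      intro n
      induction n with
      | zero => simp
      | succ n ih =>
        have e1 : w + (n + 1) = w + n + 1 := by ring
        rw [e1, ← Finset.insert_Ioc_right_eq_Ioc_add_one (by omega : w ≤ w + n),
          Finset.sum_insert (by simp)]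
        have h1 := stpa_step (w + n) (by omega)
        linarith
    obtain ⟨n, rfl⟩ := Nat.exists_eq_add_of_le h
    have h1 := key n
    have h2 : 0 ≤ ((w + n : ℕ) : ℝ) ^ (-(1 / 4) : ℝ) := by positivity
    linarith

/-- `∑_{w < k ≤ K} τ(k) ^ 3 k ^ (-4/3) ≤ C w ^ (-1/4)` -/
theorem sumtau : ∃ C : ℝ, 0 < C ∧ ∀ w K : ℕ, 1 ≤ w →
    ∑ k ∈ Ioc w K, (k.divisors.card : ℝ) ^ 3 * (k : ℝ) ^ (-(4 / 3) : ℝ) ≤
      C * (w : ℝ) ^ (-(1 / 4) : ℝ) := by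
  obtain ⟨c, hc, h⟩ := Pool.Agent.FTA.divisor_bound (ε := 1 / 36) (by norm_num)
  refine ⟨c ^ 3 * 4, by positivity, ?_⟩
  intro w K hw
  have h1 : ∀ k ∈ Ioc w K, (k.divisors.card : ℝ) ^ 3 * (k : ℝ) ^ (-(4 / 3) : ℝ) ≤
      c ^ 3 * (k : ℝ) ^ (-(5 / 4) : ℝ) := by
    intro k hk
    rw [mem_Ioc] at hk
    have hk0 : (0 : ℝ) < k := by exact_mod_cast (by omega : 0 < k)
    have h2 := h k (by omega)
    have h3 : (k.divisors.card : ℝ) ^ 3 ≤ c ^ 3 * (k : ℝ) ^ (1 / 12 : ℝ) := by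
      calc (k.divisors.card : ℝ) ^ 3 ≤ (c * (k : ℝ) ^ (1 / 36 : ℝ)) ^ 3 :=
            pow_le_pow_left₀ (by positivity) h2 3
        _ = c ^ 3 * ((k : ℝ) ^ (1 / 36 : ℝ)) ^ 3 := by ring
        _ = c ^ 3 * (k : ℝ) ^ (1 / 12 : ℝ) := by
          rw [← Real.rpow_natCast ((k : ℝ) ^ (1 / 36 : ℝ)), ← Real.rpow_mul hk0.le]
          norm_num
    calc (k.divisors.card : ℝ) ^ 3 * (k : ℝ) ^ (-(4 / 3) : ℝ)
        ≤ (c ^ 3 * (k : ℝ) ^ (1 / 12 : ℝ)) * (k : ℝ) ^ (-(4 / 3) : ℝ) := by gcongr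
      _ = c ^ 3 * ((k : ℝ) ^ (1 / 12 : ℝ) * (k : ℝ) ^ (-(4 / 3) : ℝ)) := by ring
      _ = c ^ 3 * (k : ℝ) ^ (-(5 / 4) : ℝ) := by
        rw [← Real.rpow_add hk0]
        norm_num
  refine (Finset.sum_le_sum h1).trans ?_
  rw [← Finset.mul_sum]
  have h2 := sum54 w K hw
  calc c ^ 3 * ∑ k ∈ Ioc w K, (k : ℝ) ^ (-(5 / 4) : ℝ)
      ≤ c ^ 3 * (4 * (w : ℝ) ^ (-(1 / 4) : ℝ)) := by gcongr
    _ = _ := by ring

/-- `∑_{k ≤ K} τ(k) ^ 3 ≤ C K ^ (13/12)` -/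
theorem sumtau1 : ∃ C : ℝ, 0 < C ∧ ∀ w K : ℕ,
    ∑ k ∈ Ioc w K, (k.divisors.card : ℝ) ^ 3 ≤ C * (K : ℝ) ^ (13 / 12 : ℝ) := by
  obtain ⟨c, hc, h⟩ := Pool.Agent.FTA.divisor_bound (ε := 1 / 36) (by norm_num)
  refine ⟨c ^ 3, by positivity, ?_⟩
  intro w K
  have h1 : ∀ k ∈ Ioc w K, (k.divisors.card : ℝ) ^ 3 ≤
      c ^ 3 * (K : ℝ) ^ (1 / 12 : ℝ) := by
    intro k hk
    rw [mem_Ioc] at hk
    have hk0 : (0 : ℝ) < k := by exact_mod_cast (by omega : 0 < k)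
    have hkK : (k : ℝ) ≤ K := by exact_mod_cast hk.2
    have h2 := h k (by omega)
    have h3 : (k.divisors.card : ℝ) ^ 3 ≤ c ^ 3 * (k : ℝ) ^ (1 / 12 : ℝ) := by
      calc (k.divisors.card : ℝ) ^ 3 ≤ (c * (k : ℝ) ^ (1 / 36 : ℝ)) ^ 3 :=
            pow_le_pow_left₀ (by positivity) h2 3
        _ = c ^ 3 * ((k : ℝ) ^ (1 / 36 : ℝ)) ^ 3 := by ring
        _ = c ^ 3 * (k : ℝ) ^ (1 / 12 : ℝ) := by
          rw [← Real.rpow_natCast ((k : ℝ) ^ (1 / 36 : ℝ)), ← Real.rpow_mul hk0.le]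
          norm_num
    calc (k.divisors.card : ℝ) ^ 3 ≤ c ^ 3 * (k : ℝ) ^ (1 / 12 : ℝ) := h3
      _ ≤ c ^ 3 * (K : ℝ) ^ (1 / 12 : ℝ) := by gcongr
  refine (Finset.sum_le_sum h1).trans ?_
  rw [Finset.sum_const, nsmul_eq_mul, Nat.card_Ioc]
  rcases Nat.eq_zero_or_pos K with h0 | h0
  · subst h0
    simp
  have hK : (0 : ℝ) < K := by exact_mod_cast h0
  have h4 : ((K - w : ℕ) : ℝ) ≤ K := by exact_mod_cast Nat.sub_le K w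
  calc ((K - w : ℕ) : ℝ) * (c ^ 3 * (K : ℝ) ^ (1 / 12 : ℝ))
      ≤ K * (c ^ 3 * (K : ℝ) ^ (1 / 12 : ℝ)) := by gcongr
    _ = c ^ 3 * ((K : ℝ) ^ (1 : ℝ) * (K : ℝ) ^ (1 / 12 : ℝ)) := by rw [Real.rpow_one]; ring
    _ = _ := by
      rw [← Real.rpow_add hK]
      norm_num

end Pool.Agent.LB
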