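import Pool.Agent.LB.Defs
import Pool.Agent.PP5S.Xdx

/-!
# LB/StPb: the zeros of `L_x` in coordinates (helper12)
-/

set_option autoImplicit false

namespace Pool.Agent.LB

open Matrix Finset Pool.Agent.PP5B

theorem tx11 (j : Fin 10) : PP5.tx 1 1 j = 1 := by
  fin_cases j <;> simp [PP5.tx]

theorem sg11 (a : Fin 12) : PP5.sg 1 1 a = 1 := by
  fin_cases a <;> simp [PP5.sg]

theorem box_finite (Y : ℝ) : {P : PP5.Sp | ∀ a, |(P a : ℝ)| ≤ Y}.Finite := by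
  refine (Set.Finite.subset (Set.Finite.pi' (fun _ : Fin 12 => Set.finite_Icc (-⌈Y⌉) ⌈Y⌉)) ?_)
  intro P hP a
  have h := abs_le.1 (hP a)
  have h1 := Int.le_ceil Y
  refine ⟨?_, ?_⟩
  · have : (-(⌈Y⌉ : ℝ)) ≤ (P a : ℝ) := by linarith
    exact_mod_cast this
  · have : (P a : ℝ) ≤ (⌈Y⌉ : ℝ) := by linarith
    exact_mod_cast this

theorem zr_finite (R t : ℝ) (x : V10) : {P : PP5.Sp | Zr R t x P}.Finite :=
  (box_finite (t * R ^ (5 / 2 : ℝ))).subset fun _ hP => hP.le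

/-- a set of zeros in the coordinates of the basis `b` -/
theorem nx_V {C T : ℝ} {x : V10} {b : Fin 4 → PP5.Sp} {G : Matrix (Fin 4) (Fin 4) ℤ}
    {l : Fin 4 → ℝ} {k : ℕ} (h : PP5S.XD C 1 1 T x b G l k) (R t : ℝ) (A : Set PP5.Sp)
    (hA : ∀ P ∈ A, Zr R t x P) : ∃ V : Finset (Fin 4 → ℤ), A.ncard = V.card ∧
    ∀ v ∈ V, Pr4 v ∧ v ⬝ᵥ (G *ᵥ v) = 0 ∧
      ∀ i, |(v i : ℝ)| * l i ≤ C * (t * R ^ (5 / 2 : ℝ)) := by
  classical
  have hfin : A.Finite := (zr_finite R t x).subset hA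
  have hex : ∀ P : PP5.Sp, ∃ n : Fin 4 → ℤ, P ∈ A → (∀ a, P a = ∑ i, n i * b i a) ∧
      ∀ i, |(n i : ℝ)| * l i ≤ C * (t * R ^ (5 / 2 : ℝ)) := by
    intro P
    by_cases hP : P ∈ A
    · obtain ⟨n, h1, h2⟩ := h.span P (t * R ^ (5 / 2 : ℝ)) (hA P hP).inE
        (fun i => by rw [sg11, mul_one]; exact (hA P hP).le i)
      exact ⟨n, fun _ => ⟨h1, h2⟩⟩
    · exact ⟨0, fun h => absurd h hP⟩
  choose n hn using hex
  have hinj : Set.InjOn n A := by
    intro P hP P' hP' he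
    funext a
    rw [(hn P hP).1 a, (hn P' hP').1 a, he]
  refine ⟨hfin.toFinset.image n, ?_, ?_⟩
  · rw [Finset.card_image_of_injOn, Set.ncard_eq_toFinset_card A hfin]
    intro P hP P' hP' he
    rw [Set.Finite.coe_toFinset] at hP hP'
    exact hinj hP hP' he
  · intro v hv
    rw [Finset.mem_image] at hv
    obtain ⟨P, hP, rfl⟩ := hv
    rw [Set.Finite.mem_toFinset] at hP
    refine ⟨?_, ?_, (hn P hP).2⟩
    · intro p hp hd
      apply (hA P hP).pr p hp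
      intro a
      rw [(hn P hP).1 a]
      exact Finset.dvd_sum fun i _ => (hd i).mul_right _
    · apply h.quad
      have h1 : (fun a => ∑ i, n P i * b i a) = P := by
        funext a
        exact ((hn P hP).1 a).symm
      rw [h1]
      exact (hA P hP).qd

/-- the data of a good `x` for the zero count -/
theorem gz_of {C R δ : ℝ} (hC : 1 ≤ C) {x : V10} (hR : 0 < R) (hff : PP5L.FF x = 0)
    (hpr : ∀ p : ℕ, p.Prime → ∃ j, ¬ (p : ℤ) ∣ x j)
    (hD : ((PP5LB.DD x : ℤ) : ℝ) ≤ -R ^ 4) (hx0 : R / 2 ≤ |(x 0 : ℝ)|) (hx : ∀ j, |(x j : ℝ)| ≤ 3 * R)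
    (hrk : ∀ p : ℕ, p.Prime → ∃ i j, ¬ (p : ℤ) ∣ (PP5L.SS x).adjugate i j)
    (hl : Lm R δ x) (hs : Spl x) (hX : PP5S.XDx C) :
    ∃ (T : ℝ) (b : Fin 4 → PP5.Sp) (G : Matrix (Fin 4) (Fin 4) ℤ) (l : Fin 4 → ℝ) (k : ℕ),
      PP5S.XD C 1 1 T x b G l k ∧ GZ (81 * C) R δ T x G l := by
  have hD0 : PP5LB.DD x < 0 := by
    have h4 : 0 < R ^ 4 := by positivity
    have h2 : ((PP5LB.DD x : ℤ) : ℝ) < 0 := by linarith
    exact_mod_cast h2
  obtain ⟨T, b, G, l, k, h⟩ := hX 1 1 le_rfl le_rfl x ⟨hpr, hff, by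
    show PP5LB.DD x ≠ 0
    exact hD0.ne⟩
  refine ⟨T, b, G, l, k, h, ?_⟩
  have hT0 := h.T0
  have hTR : R ≤ 2 * T := by
    have := h.Tle 0
    rw [tx11, mul_one] at this
    linarith
  have hTR2 : T ≤ 3 * R := by
    obtain ⟨j, hj⟩ := h.Tge
    rw [tx11, mul_one] at hj
    linarith [hx j]
  obtain ⟨B, hB⟩ := h.bas
  have hdet : G.det = PP5LB.DD x := by
    apply (hs B G ?_).1
    intro i k j
    rw [hB i, hB k]
    exact h.pol i k j
  have h81 : C ≤ 81 * C := by linarith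
  refine ⟨h.xg, ⟨h.xg.sym, h.xg.ev, h.xg.det, h.lp, h.mono.1, h.mono.2.1, h.mono.2.2, h.T0, ?_⟩,
    ?_, ?_, hD0, ?_, hdet, ?_, ?_, ?_⟩
  · intro i j
    refine (h.gram i j).trans ?_
    have := h.lp i
    have := h.lp j
    gcongr
  · nlinarith
  · nlinarith
  · have h3 : |((PP5LB.DD x : ℤ) : ℝ)| = -((PP5LB.DD x : ℤ) : ℝ) := abs_of_neg (by exact_mod_cast hD0)
    rw [h3]
    have : 0 < R ^ 4 := by positivity
    nlinarith
  · refine h.prod.trans ?_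
    calc C * T ^ 4 ≤ C * (3 * R) ^ 4 := by gcongr
      _ = 81 * C * R ^ 4 := by ring
  · have hb0 : b 0 ≠ 0 := by
      intro h0
      have := h.ind (fun i => if i = 0 then 1 else 0) (by
        intro a
        simp [h0])
      have := congrFun this 0
      simp at this
    obtain ⟨a, ha⟩ := hl (b 0) (h.bE 0) hb0
    have := h.bl 0 a
    rw [sg11, mul_one] at this
    linarith
  · intro p hp
    by_contra hcon
    push Not at hcon
    obtain ⟨i, j, hij⟩ := hrk p hp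
    exact hij (h.xg.con p hcon i j)

end Pool.Agent.LB
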