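import Pool.Agent.LB.StPa
import Pool.Agent.LB.StPb

/-!
# LB/StPc: the count for one `x` (helper12)
-/

set_option autoImplicit false

namespace Pool.Agent.LB

open Matrix Finset Pool.Agent.PP5B

/-- the proper good zeros -/
def Zp (R CV cD δ : ℝ) (x : V10) : Set PP5.Sp :=
  {P | P ∈ Zg R CV cD x ∧ ∀ p : ℕ, p.Prime → (p : ℝ) ≤ R ^ δ → ¬ Imp p P}

theorem zg_finite (R CV cD : ℝ) (x : V10) : (Zg R CV cD x).Finite :=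
  (zr_finite R CV x).subset fun _ hP => hP.1

theorem zp_finite (R CV cD δ : ℝ) (x : V10) : (Zp R CV cD δ x).Finite :=
  (zg_finite R CV cD x).subset fun _ hP => hP.1

theorem rp1 {t : ℝ} (ht : 0 ≤ t) {k : ℝ} (hk : 1 ≤ k) (h1 : 1 ≤ t) :
    (t / k) ^ (4 / 3 : ℝ) * (1 + (t / k) ^ (2 / 3 : ℝ)) ≤ 2 * t ^ 2 * k ^ (-(4 / 3) : ℝ) := by
  have hk0 : 0 < k := by linarith
  have ht0 : 0 < t := by linarith
  have e1 : (t / k) ^ (4 / 3 : ℝ) = t ^ (4 / 3 : ℝ) * k ^ (-(4 / 3) : ℝ) := by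
    rw [Real.div_rpow ht hk0.le, Real.rpow_neg hk0.le, div_eq_mul_inv]
  have e2 : (t / k) ^ (2 / 3 : ℝ) ≤ t ^ (2 / 3 : ℝ) := by
    apply Real.rpow_le_rpow (by positivity) _ (by norm_num)
    exact div_le_self ht hk
  have e3 : 1 ≤ t ^ (2 / 3 : ℝ) := Real.one_le_rpow h1 (by norm_num)
  have e4 : t ^ (4 / 3 : ℝ) * t ^ (2 / 3 : ℝ) = t ^ 2 := by
    rw [← Real.rpow_add ht0, ← Real.rpow_natCast t 2]
    congr 1
    norm_num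
  rw [e1]
  calc t ^ (4 / 3 : ℝ) * k ^ (-(4 / 3) : ℝ) * (1 + (t / k) ^ (2 / 3 : ℝ))
      ≤ t ^ (4 / 3 : ℝ) * k ^ (-(4 / 3) : ℝ) * (2 * t ^ (2 / 3 : ℝ)) := by
        apply mul_le_mul_of_nonneg_left _ (by positivity)
        linarith
    _ = 2 * (t ^ (4 / 3 : ℝ) * t ^ (2 / 3 : ℝ)) * k ^ (-(4 / 3) : ℝ) := by ring
    _ = _ := by rw [e4]

/-- the count for one `x`; `ε = w ^ (-1/50)` -/
theorem perx {Cs Cs1 : ℝ} (hCs : 0 < Cs) (hCs1 : 0 < Cs1)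
    (hs : ∀ w K : ℕ, 1 ≤ w → ∑ k ∈ Ioc w K, (k.divisors.card : ℝ) ^ 3 * (k : ℝ) ^ (-(4 / 3) : ℝ) ≤
      Cs * (w : ℝ) ^ (-(1 / 4) : ℝ))
    (hs1 : ∀ w K : ℕ, ∑ k ∈ Ioc w K, (k.divisors.card : ℝ) ^ 3 ≤ Cs1 * (K : ℝ) ^ (13 / 12 : ℝ))
    {CA C1 C2 R κ δ η1 η2 cD S Th : ℝ} {w : ℕ} {x : V10} (hCA : 1 ≤ CA) (hC1 : 0 ≤ C1) (hC2 : 0 ≤ C2)
    (hR : 1 ≤ R) (hw : 1 ≤ w) (hκ : 0 < κ) (hTh : 0 ≤ Th)
    (hA : S ≤ Set.ncard (Zg R (CA * ((w : ℝ) ^ (-(1 / 50) : ℝ)) ^ (-(1 / 2) : ℝ)) cD x) +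
      Nx R (CA * ((w : ℝ) ^ (-(1 / 50) : ℝ)) ^ (1 / 2 : ℝ)) x +
      ∑ k ∈ Ioc w ⌊R ^ (κ / 2)⌋₊, (k.divisors.card : ℝ) ^ 3 *
        Nx R (CA * ((w : ℝ) ^ (-(1 / 50) : ℝ)) ^ (-(1 / 2) : ℝ) / k) x + R ^ (2 - κ / 20))
    (hZ : ∀ t : ℝ, R ^ (-κ) ≤ t → t ≤ R ^ κ → (Nx R t x : ℝ) ≤
      C1 * (Th * t ^ (4 / 3 : ℝ) * (1 + t ^ (2 / 3 : ℝ)) * R ^ 2 + R ^ (2 - η1)))
    (hG : (Set.ncard {P : PP5.Sp | Zr R (CA * (w : ℝ) ^ (1 / 100 : ℝ)) x P ∧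
      ∃ p : ℕ, p.Prime ∧ w < p ∧ (p : ℝ) ≤ R ^ δ ∧ Imp p P} : ℝ) ≤
      C2 * (Th * (CA * (w : ℝ) ^ (1 / 100 : ℝ)) ^ 2 * (w : ℝ) ^ (-(1 / 6) : ℝ) * R ^ 2 + R ^ (2 - η2)))
    (hG0 : ∀ P : PP5.Sp, PP5.InE P x → PP5.Qd P → Prs P → ∀ p : ℕ, p.Prime → p ≤ w → ¬ Imp p P)
    (hRw : CA * (w : ℝ) ^ (1 / 100 : ℝ) ≤ R ^ κ)
    (hRw' : R ^ (-κ) ≤ CA * (w : ℝ) ^ (-(1 / 100) : ℝ)) :
    S ≤ Set.ncard (Zp R (CA * (w : ℝ) ^ (1 / 100 : ℝ)) cD δ x) +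
      (2 * C1 * CA ^ 2 + 2 * C1 * CA ^ 2 * Cs + C2 * CA ^ 2) * (w : ℝ) ^ (-(1 / 100) : ℝ) * (Th * R ^ 2) +
      (C1 * R ^ (2 - η1) + C1 * Cs1 * R ^ (2 - η1 + 13 * κ / 24) + C2 * R ^ (2 - η2) +
        R ^ (2 - κ / 20)) := by
  have hw1 : (1 : ℝ) ≤ w := by exact_mod_cast hw
  have hw0 : (0 : ℝ) < w := by linarith
  have hR0 : 0 < R := by linarith
  have hCA0 : 0 < CA := by linarith
  have ew1 : ((w : ℝ) ^ (-(1 / 50) : ℝ)) ^ (-(1 / 2) : ℝ) = (w : ℝ) ^ (1 / 100 : ℝ) := by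
    rw [← Real.rpow_mul hw0.le]
    norm_num
  have ew2 : ((w : ℝ) ^ (-(1 / 50) : ℝ)) ^ (1 / 2 : ℝ) = (w : ℝ) ^ (-(1 / 100) : ℝ) := by
    rw [← Real.rpow_mul hw0.le]
    norm_num
  rw [ew1, ew2] at hA
  set W := (w : ℝ) ^ (1 / 100 : ℝ) with hW
  have hW1 : 1 ≤ W := Real.one_le_rpow hw1 (by norm_num)
  set V := (w : ℝ) ^ (-(1 / 100) : ℝ) with hV
  have hV0 : 0 < V := Real.rpow_pos_of_pos hw0 _
  have hV1 : V ≤ 1 := Real.rpow_le_one_of_one_le_of_nonpos hw1 (by norm_num)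
  have hτ1 : 1 ≤ CA * W := by nlinarith
  have hR2 : 0 ≤ Th * R ^ 2 := by positivity
  -- (i)
  have b1 : (Nx R (CA * V) x : ℝ) ≤ 2 * C1 * CA ^ 2 * V * (Th * R ^ 2) + C1 * R ^ (2 - η1) := by
    have h1 := hZ (CA * V) hRw' (le_trans (by nlinarith) hRw)
    have h2 : (CA * V) ^ (4 / 3 : ℝ) * (1 + (CA * V) ^ (2 / 3 : ℝ)) ≤ 2 * CA ^ 2 * V := by
      have e1 : (CA * V) ^ (4 / 3 : ℝ) = CA ^ (4 / 3 : ℝ) * V ^ (4 / 3 : ℝ) :=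
        Real.mul_rpow hCA0.le hV0.le
      have e2 : V ^ (4 / 3 : ℝ) ≤ V := by
        calc V ^ (4 / 3 : ℝ) ≤ V ^ (1 : ℝ) :=
              Real.rpow_le_rpow_of_exponent_ge hV0 hV1 (by norm_num)
          _ = V := Real.rpow_one V
      have e3 : (CA * V) ^ (2 / 3 : ℝ) ≤ CA ^ (2 / 3 : ℝ) := by
        apply Real.rpow_le_rpow (by positivity) _ (by norm_num)
        nlinarith
      have e4 : 1 ≤ CA ^ (2 / 3 : ℝ) := Real.one_le_rpow hCA (by norm_num)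
      have e5 : CA ^ (4 / 3 : ℝ) * CA ^ (2 / 3 : ℝ) = CA ^ 2 := by
        rw [← Real.rpow_add hCA0, ← Real.rpow_natCast CA 2]
        congr 1
        norm_num
      rw [e1]
      have p1 : 0 < CA ^ (4 / 3 : ℝ) := Real.rpow_pos_of_pos hCA0 _
      have p2 : 0 < V ^ (4 / 3 : ℝ) := Real.rpow_pos_of_pos hV0 _
      calc CA ^ (4 / 3 : ℝ) * V ^ (4 / 3 : ℝ) * (1 + (CA * V) ^ (2 / 3 : ℝ))
          ≤ CA ^ (4 / 3 : ℝ) * V * (2 * CA ^ (2 / 3 : ℝ)) := by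
            apply mul_le_mul (mul_le_mul_of_nonneg_left e2 p1.le) (by linarith)
              (by positivity) (by positivity)
        _ = 2 * (CA ^ (4 / 3 : ℝ) * CA ^ (2 / 3 : ℝ)) * V := by ring
        _ = _ := by rw [e5]
    refine h1.trans ?_
    have h3 : Th * (CA * V) ^ (4 / 3 : ℝ) * (1 + (CA * V) ^ (2 / 3 : ℝ)) * R ^ 2 ≤
        (2 * CA ^ 2 * V) * (Th * R ^ 2) := by
      calc Th * (CA * V) ^ (4 / 3 : ℝ) * (1 + (CA * V) ^ (2 / 3 : ℝ)) * R ^ 2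
          = ((CA * V) ^ (4 / 3 : ℝ) * (1 + (CA * V) ^ (2 / 3 : ℝ))) * (Th * R ^ 2) := by ring
        _ ≤ _ := mul_le_mul_of_nonneg_right h2 hR2
    calc C1 * (Th * (CA * V) ^ (4 / 3 : ℝ) * (1 + (CA * V) ^ (2 / 3 : ℝ)) * R ^ 2 + R ^ (2 - η1))
        ≤ C1 * ((2 * CA ^ 2 * V) * (Th * R ^ 2) + R ^ (2 - η1)) := by gcongr
      _ = _ := by ring
  -- (ii)
  have b2 : ∑ k ∈ Ioc w ⌊R ^ (κ / 2)⌋₊, (k.divisors.card : ℝ) ^ 3 * Nx R (CA * W / k) x ≤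
      2 * C1 * CA ^ 2 * Cs * V * (Th * R ^ 2) + C1 * Cs1 * R ^ (2 - η1 + 13 * κ / 24) := by
    have h1 : ∀ k ∈ Ioc w ⌊R ^ (κ / 2)⌋₊, (k.divisors.card : ℝ) ^ 3 * Nx R (CA * W / k) x ≤
        C1 * (2 * (CA * W) ^ 2 * (Th * R ^ 2)) *
          ((k.divisors.card : ℝ) ^ 3 * (k : ℝ) ^ (-(4 / 3) : ℝ)) +
        C1 * R ^ (2 - η1) * ((k.divisors.card : ℝ) ^ 3) := by
      intro k hk
      rw [mem_Ioc] at hk
      have hk1 : (1 : ℝ) ≤ k := by exact_mod_cast (by omega : 1 ≤ k)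
      have hk0 : (0 : ℝ) < k := by linarith
      have hkR : (k : ℝ) ≤ R ^ (κ / 2) := (Nat.le_floor_iff (by positivity)).1 hk.2
      have h2 := hZ (CA * W / k) (by
        rw [le_div_iff₀ hk0]
        calc R ^ (-κ) * k ≤ R ^ (-κ) * R ^ (κ / 2) := by gcongr
          _ = R ^ (-κ / 2) := by
            rw [← Real.rpow_add hR0]
            congr 1
            ring
          _ ≤ 1 := Real.rpow_le_one_of_one_le_of_nonpos hR (by linarith)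
          _ ≤ _ := hτ1) ((div_le_self (by positivity) hk1).trans hRw)
      have h3 := rp1 (t := CA * W) (by positivity) hk1 hτ1
      have h4 : Th * (CA * W / k) ^ (4 / 3 : ℝ) * (1 + (CA * W / k) ^ (2 / 3 : ℝ)) * R ^ 2 ≤
          (2 * (CA * W) ^ 2 * (k : ℝ) ^ (-(4 / 3) : ℝ)) * (Th * R ^ 2) := by
        calc Th * (CA * W / k) ^ (4 / 3 : ℝ) * (1 + (CA * W / k) ^ (2 / 3 : ℝ)) * R ^ 2
            = ((CA * W / k) ^ (4 / 3 : ℝ) * (1 + (CA * W / k) ^ (2 / 3 : ℝ))) * (Th * R ^ 2) := by ring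
          _ ≤ _ := mul_le_mul_of_nonneg_right h3 hR2
      calc (k.divisors.card : ℝ) ^ 3 * Nx R (CA * W / k) x
          ≤ (k.divisors.card : ℝ) ^ 3 *
            (C1 * ((2 * (CA * W) ^ 2 * (k : ℝ) ^ (-(4 / 3) : ℝ)) * (Th * R ^ 2) + R ^ (2 - η1))) := by
            apply mul_le_mul_of_nonneg_left _ (by positivity)
            refine h2.trans ?_
            gcongr
        _ = _ := by ring
    refine (Finset.sum_le_sum h1).trans ?_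
    rw [Finset.sum_add_distrib, ← Finset.mul_sum, ← Finset.mul_sum]
    have h5 := hs w ⌊R ^ (κ / 2)⌋₊ hw
    have h6 := hs1 w ⌊R ^ (κ / 2)⌋₊
    have h7 : ((⌊R ^ (κ / 2)⌋₊ : ℕ) : ℝ) ^ (13 / 12 : ℝ) ≤ R ^ (13 * κ / 24) := by
      calc ((⌊R ^ (κ / 2)⌋₊ : ℕ) : ℝ) ^ (13 / 12 : ℝ) ≤ (R ^ (κ / 2)) ^ (13 / 12 : ℝ) := by
            apply Real.rpow_le_rpow (by positivity) _ (by norm_num)
            exact Nat.floor_le (by positivity)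
        _ = R ^ (13 * κ / 24) := by
          rw [← Real.rpow_mul hR0.le]
          congr 1
          ring
    have h8 : W ^ 2 * (w : ℝ) ^ (-(1 / 4) : ℝ) ≤ V := by
      rw [hW, hV, ← Real.rpow_natCast, ← Real.rpow_mul hw0.le, ← Real.rpow_add hw0]
      exact Real.rpow_le_rpow_of_exponent_le hw1 (by norm_num)
    have h9 : C1 * (2 * (CA * W) ^ 2 * (Th * R ^ 2)) *
        ∑ k ∈ Ioc w ⌊R ^ (κ / 2)⌋₊, (k.divisors.card : ℝ) ^ 3 * (k : ℝ) ^ (-(4 / 3) : ℝ) ≤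
        2 * C1 * CA ^ 2 * Cs * V * (Th * R ^ 2) := by
      calc C1 * (2 * (CA * W) ^ 2 * (Th * R ^ 2)) *
          ∑ k ∈ Ioc w ⌊R ^ (κ / 2)⌋₊, (k.divisors.card : ℝ) ^ 3 * (k : ℝ) ^ (-(4 / 3) : ℝ)
          ≤ C1 * (2 * (CA * W) ^ 2 * (Th * R ^ 2)) * (Cs * (w : ℝ) ^ (-(1 / 4) : ℝ)) := by
            gcongr
        _ = (2 * C1 * CA ^ 2 * Cs * (Th * R ^ 2)) * (W ^ 2 * (w : ℝ) ^ (-(1 / 4) : ℝ)) := by ring
        _ ≤ (2 * C1 * CA ^ 2 * Cs * (Th * R ^ 2)) * V := by gcongr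
        _ = _ := by ring
    have h10 : C1 * R ^ (2 - η1) * ∑ k ∈ Ioc w ⌊R ^ (κ / 2)⌋₊, (k.divisors.card : ℝ) ^ 3 ≤
        C1 * Cs1 * R ^ (2 - η1 + 13 * κ / 24) := by
      calc C1 * R ^ (2 - η1) * ∑ k ∈ Ioc w ⌊R ^ (κ / 2)⌋₊, (k.divisors.card : ℝ) ^ 3
          ≤ C1 * R ^ (2 - η1) * (Cs1 * R ^ (13 * κ / 24)) := by
            apply mul_le_mul_of_nonneg_left _ (by positivity)
            exact h6.trans (mul_le_mul_of_nonneg_left h7 hCs1.le)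
        _ = C1 * Cs1 * (R ^ (2 - η1) * R ^ (13 * κ / 24)) := by ring
        _ = _ := by rw [← Real.rpow_add hR0]
    linarith
  -- (iii)
  have b3 : ((Zg R (CA * W) cD x).ncard : ℝ) ≤ ((Zp R (CA * W) cD δ x).ncard : ℝ) +
      (C2 * CA ^ 2 * V * (Th * R ^ 2) + C2 * R ^ (2 - η2)) := by
    have hsub : Zg R (CA * W) cD x ⊆ Zp R (CA * W) cD δ x ∪
        {P : PP5.Sp | Zr R (CA * W) x P ∧ ∃ p : ℕ, p.Prime ∧ w < p ∧ (p : ℝ) ≤ R ^ δ ∧ Imp p P} := by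
      intro P hP
      by_cases h : ∀ p : ℕ, p.Prime → (p : ℝ) ≤ R ^ δ → ¬ Imp p P
      · exact Or.inl ⟨hP, h⟩
      · right
        push Not at h
        obtain ⟨p, hp, hpR, hi⟩ := h
        refine ⟨hP.1, p, hp, ?_, hpR, hi⟩
        by_contra hcon
        exact hG0 P hP.1.inE hP.1.qd hP.1.pr p hp (by omega) hi
    have hfin : (Zp R (CA * W) cD δ x ∪
        {P : PP5.Sp | Zr R (CA * W) x P ∧ ∃ p : ℕ, p.Prime ∧ w < p ∧ (p : ℝ) ≤ R ^ δ ∧ Imp p P}).Finite :=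
      (zp_finite _ _ _ _ _).union ((zr_finite R (CA * W) x).subset fun _ h => h.1)
    have h1 := (Set.ncard_le_ncard hsub hfin).trans (Set.ncard_union_le _ _)
    have h2 : ((Zg R (CA * W) cD x).ncard : ℝ) ≤ ((Zp R (CA * W) cD δ x).ncard : ℝ) +
        (Set.ncard {P : PP5.Sp | Zr R (CA * W) x P ∧
          ∃ p : ℕ, p.Prime ∧ w < p ∧ (p : ℝ) ≤ R ^ δ ∧ Imp p P} : ℝ) := by
      exact_mod_cast h1
    refine h2.trans (add_le_add_right (hG.trans ?_) _)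
    have h8 : W ^ 2 * (w : ℝ) ^ (-(1 / 6) : ℝ) ≤ V := by
      rw [hW, hV, ← Real.rpow_natCast, ← Real.rpow_mul hw0.le, ← Real.rpow_add hw0]
      exact Real.rpow_le_rpow_of_exponent_le hw1 (by norm_num)
    calc C2 * (Th * (CA * W) ^ 2 * (w : ℝ) ^ (-(1 / 6) : ℝ) * R ^ 2 + R ^ (2 - η2))
        = C2 * CA ^ 2 * (Th * R ^ 2) * (W ^ 2 * (w : ℝ) ^ (-(1 / 6) : ℝ)) + C2 * R ^ (2 - η2) := by ring
      _ ≤ C2 * CA ^ 2 * (Th * R ^ 2) * V + C2 * R ^ (2 - η2) := by gcongr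
      _ = _ := by ring
  have e : (2 * C1 * CA ^ 2 + 2 * C1 * CA ^ 2 * Cs + C2 * CA ^ 2) * V * (Th * R ^ 2) =
      2 * C1 * CA ^ 2 * V * (Th * R ^ 2) + 2 * C1 * CA ^ 2 * Cs * V * (Th * R ^ 2) +
      C2 * CA ^ 2 * V * (Th * R ^ 2) := by ring
  rw [e]
  linarith

end Pool.Agent.LB
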