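import Pool.Agent.LB.StPd

/-!
# LB/StPe: `StP` from the other statements (helper12)
-/

set_option autoImplicit false

namespace Pool.Agent.LB

open Matrix Finset Pool.Agent.PP5B Filter Topology

theorem xs_le (j : Fin 10) : |((xs j : ℤ) : ℝ)| ≤ 2 := by
  fin_cases j <;> simp [xs]

/-- elementary facts in the cell -/
theorem cell_facts {h r : ℕ} (hh : 1000 ≤ h) (hr : 1 ≤ r) {x : V10}
    (hx : ∀ j, |(x j : ℝ) - (h * r : ℝ) * xs j| ≤ 100 * r) :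
    (∀ j, |(x j : ℝ)| ≤ 3 * (h * r : ℝ)) ∧ 9 / 10 * (h * r : ℝ) ≤ |(x 0 : ℝ)| := by
  have h1 : (1000 : ℝ) ≤ h := by exact_mod_cast hh
  have h2 : (1 : ℝ) ≤ r := by exact_mod_cast hr
  have h3 : 1000 * (r : ℝ) ≤ h * r := by nlinarith
  constructor
  · intro j
    have e1 := hx j
    have e2 := xs_le j
    have e3 : |(h * r : ℝ) * xs j| ≤ (h * r : ℝ) * 2 := by
      rw [abs_mul, abs_of_nonneg (by positivity : (0 : ℝ) ≤ h * r)]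
      gcongr
    have e4 : |(x j : ℝ)| ≤ |(x j : ℝ) - (h * r : ℝ) * xs j| + |(h * r : ℝ) * xs j| := by
      have := abs_add_le ((x j : ℝ) - (h * r : ℝ) * xs j) ((h * r : ℝ) * xs j)
      rwa [sub_add_cancel] at this
    linarith
  · have e1 := abs_le.1 (hx 0)
    have e2 : ((xs 0 : ℤ) : ℝ) = 1 := by simp [xs]
    rw [e2, mul_one] at e1
    have e3 := le_abs_self (x 0 : ℝ)
    linarith [e1.1]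

/-- the bounds for `Nx` from `StZ` -/
theorem nx_bds {δc A c3 Cx κ δ C η R δ' : ℝ} (hCx : 1 ≤ Cx) (hR : 1 ≤ R) (hκ : 0 < κ)
    (hZ : ∀ (x : V10) (T : ℝ) (G : Matrix (Fin 4) (Fin 4) ℤ) (l : Fin 4 → ℝ), GZ (81 * Cx) R δ T x G l →
      ∀ (t : ℝ) (V : Finset (Fin 4 → ℤ)), (∀ v ∈ V, Pr4 v ∧ v ⬝ᵥ (G *ᵥ v) = 0 ∧
        ∀ i, |(v i : ℝ)| * l i ≤ t * R ^ (5 / 2 : ℝ)) →
      (∀ Θ : V10 → ℝ, CC1 (R ^ (5 / 2 : ℝ)) δc A c3 Θ → R ^ (-(3 / 2 * κ)) ≤ t → t ≤ R ^ (3 / 2 * κ) →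
        (V.card : ℝ) ≤ C * (Θ x * t ^ (4 / 3 : ℝ) * (1 + t ^ (2 / 3 : ℝ)) * R ^ 2 + R ^ (2 - η))) ∧
      (0 < t → t ≤ R ^ (3 / 2 * κ) → (V.card : ℝ) ≤
        R ^ (3 / 2 * κ / 100) * (t ^ (4 / 3 : ℝ) * (1 + t ^ (2 / 3 : ℝ)) * R ^ 2 + 1)))
    (hX : PP5S.XDx Cx) (hC : 0 ≤ C) {x : V10} (hff : PP5L.FF x = 0)
    (hpr : ∀ p : ℕ, p.Prime → ∃ j, ¬ (p : ℤ) ∣ x j)
    (hD : ((PP5LB.DD x : ℤ) : ℝ) ≤ -R ^ 4) (hx0 : R / 2 ≤ |(x 0 : ℝ)|) (hx : ∀ j, |(x j : ℝ)| ≤ 3 * R)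
    (hrk : ∀ p : ℕ, p.Prime → ∃ i j, ¬ (p : ℤ) ∣ (PP5L.SS x).adjugate i j)
    (hl : Lm R δ' x) (hdd : δ' ≤ δ) (hs : Spl x) (hb1 : Cx ≤ R ^ (κ / 2)) (hb2 : Cx ^ 2 ≤ R ^ (κ / 200)) :
    (∀ Θ : V10 → ℝ, CC1 (R ^ (5 / 2 : ℝ)) δc A c3 Θ → ∀ t : ℝ, R ^ (-κ) ≤ t → t ≤ R ^ κ →
      (Nx R t x : ℝ) ≤ (C * Cx ^ 2) * (Θ x * t ^ (4 / 3 : ℝ) * (1 + t ^ (2 / 3 : ℝ)) * R ^ 2 +
        R ^ (2 - η))) ∧
    (∀ t : ℝ, 0 < t → t ≤ R ^ κ → (Nx R t x : ℝ) ≤ R ^ (κ / 50) *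
      (t ^ (4 / 3 : ℝ) * (1 + t ^ (2 / 3 : ℝ)) * R ^ 2 + 1)) := by
  have hR0 : 0 < R := by linarith
  have hCx0 : 0 < Cx := by linarith
  obtain ⟨T, b, G, l, k, hXD, hGZ⟩ := gz_of hCx hR0 hff hpr hD hx0 hx hrk (hl.mono hR hdd) hs hX
  have hsc : ∀ t : ℝ, 0 < t → (Cx * t) ^ (4 / 3 : ℝ) * (1 + (Cx * t) ^ (2 / 3 : ℝ)) ≤
      Cx ^ 2 * (t ^ (4 / 3 : ℝ) * (1 + t ^ (2 / 3 : ℝ))) := by
    intro t ht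
    rw [Real.mul_rpow hCx0.le ht.le, Real.mul_rpow hCx0.le ht.le]
    have e1 : 1 ≤ Cx ^ (2 / 3 : ℝ) := Real.one_le_rpow hCx (by norm_num)
    have e2 : Cx ^ (4 / 3 : ℝ) * Cx ^ (2 / 3 : ℝ) = Cx ^ 2 := by
      rw [← Real.rpow_add hCx0, ← Real.rpow_natCast Cx 2]
      congr 1
      norm_num
    have p1 : 0 < Cx ^ (4 / 3 : ℝ) := Real.rpow_pos_of_pos hCx0 _
    have p2 : 0 < t ^ (4 / 3 : ℝ) := Real.rpow_pos_of_pos ht _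
    have p3 : 0 < t ^ (2 / 3 : ℝ) := Real.rpow_pos_of_pos ht _
    calc Cx ^ (4 / 3 : ℝ) * t ^ (4 / 3 : ℝ) * (1 + Cx ^ (2 / 3 : ℝ) * t ^ (2 / 3 : ℝ))
        ≤ Cx ^ (4 / 3 : ℝ) * t ^ (4 / 3 : ℝ) * (Cx ^ (2 / 3 : ℝ) * (1 + t ^ (2 / 3 : ℝ))) := by
          apply mul_le_mul_of_nonneg_left _ (by positivity)
          nlinarith
      _ = (Cx ^ (4 / 3 : ℝ) * Cx ^ (2 / 3 : ℝ)) * (t ^ (4 / 3 : ℝ) * (1 + t ^ (2 / 3 : ℝ))) := by ring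
      _ = _ := by rw [e2]
  have hV : ∀ t : ℝ, ∃ V : Finset (Fin 4 → ℤ), Nx R t x = V.card ∧ ∀ v ∈ V, Pr4 v ∧
      v ⬝ᵥ (G *ᵥ v) = 0 ∧ ∀ i, |(v i : ℝ)| * l i ≤ Cx * t * R ^ (5 / 2 : ℝ) := by
    intro t
    obtain ⟨V, h1, h2⟩ := nx_V hXD R t {P | Zr R t x P} (fun P hP => hP)
    refine ⟨V, h1, fun v hv => ⟨(h2 v hv).1, (h2 v hv).2.1, fun i => ?_⟩⟩
    rw [mul_assoc]
    exact (h2 v hv).2.2 i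
  have hup : ∀ t : ℝ, 0 < t → t ≤ R ^ κ → Cx * t ≤ R ^ (3 / 2 * κ) := by
    intro t ht0 ht
    calc Cx * t ≤ R ^ (κ / 2) * R ^ κ := mul_le_mul hb1 ht ht0.le (by positivity)
      _ = R ^ (3 / 2 * κ) := by
        rw [← Real.rpow_add hR0]
        congr 1
        ring
  constructor
  · intro Θ hΘ t ht1 ht2
    have ht0 : 0 < t := lt_of_lt_of_le (Real.rpow_pos_of_pos hR0 _) ht1
    obtain ⟨V, h1, h2⟩ := hV t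
    have h3 := (hZ x T G l hGZ (Cx * t) V h2).1 Θ hΘ (by
      calc R ^ (-(3 / 2 * κ)) ≤ R ^ (-κ) := Real.rpow_le_rpow_of_exponent_le hR (by linarith)
        _ ≤ t := ht1
        _ ≤ Cx * t := by nlinarith) (hup t ht0 ht2)
    rw [h1]
    refine h3.trans ?_
    have h4 := hsc t ht0
    have hTh := hΘ.nn x
    have h5 : Θ x * (Cx * t) ^ (4 / 3 : ℝ) * (1 + (Cx * t) ^ (2 / 3 : ℝ)) * R ^ 2 ≤
        Cx ^ 2 * (Θ x * t ^ (4 / 3 : ℝ) * (1 + t ^ (2 / 3 : ℝ)) * R ^ 2) := by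
      calc Θ x * (Cx * t) ^ (4 / 3 : ℝ) * (1 + (Cx * t) ^ (2 / 3 : ℝ)) * R ^ 2
          = ((Cx * t) ^ (4 / 3 : ℝ) * (1 + (Cx * t) ^ (2 / 3 : ℝ))) * (Θ x * R ^ 2) := by ring
        _ ≤ (Cx ^ 2 * (t ^ (4 / 3 : ℝ) * (1 + t ^ (2 / 3 : ℝ)))) * (Θ x * R ^ 2) :=
          mul_le_mul_of_nonneg_right h4 (by positivity)
        _ = _ := by ring
    have h6 : R ^ (2 - η) ≤ Cx ^ 2 * R ^ (2 - η) := by
      have h7 : 0 < R ^ (2 - η) := Real.rpow_pos_of_pos hR0 _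
      have h8 : (1 : ℝ) ≤ Cx ^ 2 := one_le_pow₀ hCx
      calc R ^ (2 - η) = 1 * R ^ (2 - η) := (one_mul _).symm
        _ ≤ Cx ^ 2 * R ^ (2 - η) := mul_le_mul_of_nonneg_right h8 h7.le
    calc C * (Θ x * (Cx * t) ^ (4 / 3 : ℝ) * (1 + (Cx * t) ^ (2 / 3 : ℝ)) * R ^ 2 + R ^ (2 - η))
        ≤ C * (Cx ^ 2 * (Θ x * t ^ (4 / 3 : ℝ) * (1 + t ^ (2 / 3 : ℝ)) * R ^ 2) +
          Cx ^ 2 * R ^ (2 - η)) := by gcongr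
      _ = _ := by ring
  · intro t ht0 ht2
    obtain ⟨V, h1, h2⟩ := hV t
    have h3 := (hZ x T G l hGZ (Cx * t) V h2).2 (by positivity) (hup t ht0 ht2)
    rw [h1]
    refine h3.trans ?_
    have h4 := hsc t ht0
    have h5 : (Cx * t) ^ (4 / 3 : ℝ) * (1 + (Cx * t) ^ (2 / 3 : ℝ)) * R ^ 2 + 1 ≤
        Cx ^ 2 * (t ^ (4 / 3 : ℝ) * (1 + t ^ (2 / 3 : ℝ)) * R ^ 2 + 1) := by
      have h6 : (Cx * t) ^ (4 / 3 : ℝ) * (1 + (Cx * t) ^ (2 / 3 : ℝ)) * R ^ 2 ≤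
          Cx ^ 2 * (t ^ (4 / 3 : ℝ) * (1 + t ^ (2 / 3 : ℝ))) * R ^ 2 :=
        mul_le_mul_of_nonneg_right h4 (by positivity)
      have h7 : (1 : ℝ) ≤ Cx ^ 2 := one_le_pow₀ hCx
      nlinarith
    have h8 : 0 ≤ t ^ (4 / 3 : ℝ) * (1 + t ^ (2 / 3 : ℝ)) * R ^ 2 + 1 := by positivity
    calc R ^ (3 / 2 * κ / 100) * ((Cx * t) ^ (4 / 3 : ℝ) * (1 + (Cx * t) ^ (2 / 3 : ℝ)) * R ^ 2 + 1)
        ≤ R ^ (3 / 2 * κ / 100) * (Cx ^ 2 * (t ^ (4 / 3 : ℝ) * (1 + t ^ (2 / 3 : ℝ)) * R ^ 2 + 1)) := by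
          gcongr
      _ ≤ R ^ (3 / 2 * κ / 100) * (R ^ (κ / 200) *
          (t ^ (4 / 3 : ℝ) * (1 + t ^ (2 / 3 : ℝ)) * R ^ 2 + 1)) := by gcongr
      _ = (R ^ (3 / 2 * κ / 100) * R ^ (κ / 200)) *
          (t ^ (4 / 3 : ℝ) * (1 + t ^ (2 / 3 : ℝ)) * R ^ 2 + 1) := by ring
      _ = _ := by
        rw [← Real.rpow_add hR0]
        congr 2
        ring

end Pool.Agent.LB
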