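import Pool.Agent.LB.StPe

/-!
# LB/StPf: `StP` (helper12)
-/

set_option autoImplicit false

namespace Pool.Agent.LB

open Matrix Finset Pool.Agent.PP5B Filter Topology

private theorem stpf_e7 (a L s : ℝ) : (a / (8 * L)) * s = 4 * ((a / (32 * L)) * s) := by
  ring

private theorem stpf_t3 (c1 a L F R : ℝ) (h : 0 ≤ (c1 * a / L) * (F * R ^ 2)) :
    c1 * F * (a * R ^ 2 / L) - (c1 * a / (4 * L)) * F * R ^ 2 -
      F * ((c1 * a / (8 * L)) * R ^ 2) ≥ (c1 * a / (2 * L)) * (F * R ^ 2) := by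
  have e1 : c1 * F * (a * R ^ 2 / L) - (c1 * a / (4 * L)) * F * R ^ 2 -
      F * ((c1 * a / (8 * L)) * R ^ 2) = (5 / 8) * ((c1 * a / L) * (F * R ^ 2)) := by ring
  have e2 : (c1 * a / (2 * L)) * (F * R ^ 2) = (1 / 2) * ((c1 * a / L) * (F * R ^ 2)) := by ring
  rw [e1, e2]
  linarith

open Classical in
/-- the sum over the family of the numbers of proper good zeros, for `R = h r` -/
theorem sum_zp {δc A : ℝ} (hLoc : StLoc) (hCel : StCel) (hB1 : StB1) (hB2 : StB2) (hL0 : StL0)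
    (hC : StC) (hD : StD) (hH : StH δc A) (hZ : StZ δc A) (hA : StA) (hG : StG δc A) (hG0 : StG0) :
    ∃ (h : ℕ) (c0 CV cD δ : ℝ) (F : ℕ → Finset V10), 1000 ≤ h ∧ 0 < c0 ∧ 0 < cD ∧ 0 < δ ∧
      ∃ r0 : ℕ, ∀ r : ℕ, r0 ≤ r → (∀ x ∈ F r, (∀ p : ℕ, p.Prime → ∃ j, ¬ (p : ℤ) ∣ x j) ∧
        PP5L.FF x = 0 ∧ PP5LB.DD x < 0 ∧ (∀ j, |(x j : ℝ)| ≤ 3 * (h * r : ℝ)) ∧
        9 / 10 * (h * r : ℝ) ≤ |(x 0 : ℝ)|) ∧
        c0 * (r : ℝ) ^ 10 ≤ ∑ x ∈ F r, (Set.ncard (Zp (h * r) CV cD δ x) : ℝ) := by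
  obtain ⟨Cx, hCx, hX⟩ := PP5S.XDx_exists
  obtain ⟨Cs, hCs, hs⟩ := sumtau
  obtain ⟨Cs1, hCs1, hs1⟩ := sumtau1
  obtain ⟨aA, CA, ε0, ha0, ha1, hCA, hε0, hA⟩ := hA
  obtain ⟨c1, εD, w0, hhD, hc1, hεD, hw0, hD⟩ := hD
  obtain ⟨c3, CH, hhH, hc3, hH⟩ := hH
  obtain ⟨κ0, η1, hκ0, hη1, hZ⟩ := hZ c3 (81 * Cx) hc3 (by linarith)
  obtain ⟨κ1, hκ1, hG⟩ := hG c3 hc3
  obtain ⟨κ, hκdef⟩ : ∃ κ : ℝ, κ = min (min (1 / 200) (κ0 / 2)) (min κ1 η1) := ⟨_, rfl⟩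
  have hκ : 0 < κ := by
    rw [hκdef]
    exact lt_min (lt_min (by norm_num) (by positivity)) (lt_min hκ1 hη1)
  have hκa : κ ≤ 1 / 200 := by rw [hκdef]; exact (min_le_left _ _).trans (min_le_left _ _)
  have hκb : κ ≤ κ0 / 2 := by rw [hκdef]; exact (min_le_left _ _).trans (min_le_right _ _)
  have hκc : κ ≤ κ1 := by rw [hκdef]; exact (min_le_right _ _).trans (min_le_left _ _)
  have hκd : κ ≤ η1 := by rw [hκdef]; exact (min_le_right _ _).trans (min_le_right _ _)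
  obtain ⟨δZ, CZ, R0Z, hδZ, hR0Z, hZ⟩ := hZ (3 / 2 * κ) (by positivity) (by linarith)
  obtain ⟨δG, η2, CG, hhG, hδG, hη2, hG⟩ := hG κ hκ hκc
  obtain ⟨δ, hδdef⟩ : ∃ δ : ℝ, δ = min (min δZ δG) (κ / 100) := ⟨_, rfl⟩
  have hδ : 0 < δ := by
    rw [hδdef]
    exact lt_min (lt_min hδZ hδG) (by positivity)
  have hδa : δ ≤ δZ := by rw [hδdef]; exact (min_le_left _ _).trans (min_le_left _ _)
  have hδb : δ ≤ δG := by rw [hδdef]; exact (min_le_left _ _).trans (min_le_right _ _)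
  have hδc : δ ≤ κ / 100 := by rw [hδdef]; exact min_le_right _ _
  obtain ⟨CB, hhB2, hB2⟩ := hB2
  obtain ⟨hhL0, hL0⟩ := hL0
  obtain ⟨ηL, hηL, hL0⟩ := hL0 δ hδ
  obtain ⟨hhB1, hB1⟩ := hB1
  obtain ⟨hhC, hC⟩ := hC
  obtain ⟨hhX, hCel⟩ := hCel
  -- the constants
  obtain ⟨C1, hC1def⟩ : ∃ C1 : ℝ, C1 = max CZ 0 * Cx ^ 2 := ⟨_, rfl⟩
  have hC1 : 0 ≤ C1 := by rw [hC1def]; positivity
  obtain ⟨C2, hC2def⟩ : ∃ C2 : ℝ, C2 = max CG 0 := ⟨_, rfl⟩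
  have hC2 : 0 ≤ C2 := by rw [hC2def]; exact le_max_right _ _
  obtain ⟨K0, hK0def⟩ : ∃ K0 : ℝ, K0 = 2 * C1 * CA ^ 2 + 2 * C1 * CA ^ 2 * Cs + C2 * CA ^ 2 := ⟨_, rfl⟩
  have hK0 : 0 ≤ K0 := by rw [hK0def]; positivity
  obtain ⟨w, hww0, hw2, hwε, hwB, hwG, hwK⟩ := ex_w w0 (ε0 := ε0) (εD := εD) (CB := CB) (CG := CG)
    (K := K0 * max CH 0) (c := c1 * aA) hε0 hεD (by positivity)
  have hw1 : (1 : ℝ) ≤ w := by exact_mod_cast (by omega : 1 ≤ w)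
  have hw2' : (2 : ℝ) ≤ w := by exact_mod_cast hw2
  have hwpos : (0 : ℝ) < w := by linarith
  have hlog : 0 < Real.log w := Real.log_pos (by linarith)
  have hε : 0 < (w : ℝ) ^ (-(1 / 50) : ℝ) := Real.rpow_pos_of_pos hwpos _
  obtain ⟨hhA, cD, hcD, hA⟩ := hA ((w : ℝ) ^ (-(1 / 50) : ℝ)) hε hwε
  obtain ⟨c, hc⟩ := hLoc w
  obtain ⟨h, hhdef⟩ : ∃ h : ℕ, h = 1000 + hhD + hhH + hhG + hhB2 + hhL0 + hhB1 + hhC + hhX + hhA := ⟨_, rfl⟩
  have hh1000 : 1000 ≤ h := by omega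
  obtain ⟨cB, hcB, rB1, hB1⟩ := hB1 w c hc h (by omega)
  obtain ⟨rB2, hB2⟩ := hB2 w c hw2 hc h (by omega)
  obtain ⟨rL, hL0⟩ := hL0 w c hc h (by omega)
  obtain ⟨rD, hD⟩ := hD w c hww0 hc h (by omega) aA ha0 ha1
  obtain ⟨rH, hH⟩ := hH w c hw2 hc h (by omega)
  obtain ⟨rG, hG⟩ := hG w c hw2 hc h (by omega)
  obtain ⟨rA, hA⟩ := hA h (by omega) κ δ w hκ hκa hδ hδc hw2
  -- the eventual conditions
  have hhpos : (0 : ℝ) < h := by exact_mod_cast (by omega : 0 < h)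
  have tR : Tendsto (fun r : ℕ => (h * r : ℝ)) atTop atTop :=
    tendsto_natCast_atTop_atTop.const_mul_atTop hhpos
  have ev : ∀ᶠ r : ℕ in atTop, Cx ≤ (h * r : ℝ) ^ (κ / 2) ∧ Cx ^ 2 ≤ (h * r : ℝ) ^ (κ / 200) ∧
      CA * (w : ℝ) ^ (1 / 100 : ℝ) ≤ (h * r : ℝ) ^ (κ / 2) ∧
      (CA * (w : ℝ) ^ (-(1 / 100) : ℝ))⁻¹ ≤ (h * r : ℝ) ^ κ ∧
      C1 * (h * r : ℝ) ^ (2 - η1) ≤ (c1 * aA / (32 * Real.log w)) * (h * r : ℝ) ^ 2 ∧
      C1 * Cs1 * (h * r : ℝ) ^ (2 - (η1 - 13 * κ / 24)) ≤ (c1 * aA / (32 * Real.log w)) * (h * r : ℝ) ^ 2 ∧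
      C2 * (h * r : ℝ) ^ (2 - η2) ≤ (c1 * aA / (32 * Real.log w)) * (h * r : ℝ) ^ 2 ∧
      1 * (h * r : ℝ) ^ (2 - κ / 20) ≤ (c1 * aA / (32 * Real.log w)) * (h * r : ℝ) ^ 2 ∧
      (εD / 3 * cB)⁻¹ ≤ (r : ℝ) ^ ηL ∧ R0Z ≤ (h * r : ℝ) := by
    have hcc : 0 < c1 * aA / (32 * Real.log w) := by positivity
    refine (tR.eventually (ev_pow Cx (by positivity : 0 < κ / 2))).and
      ((tR.eventually (ev_pow (Cx ^ 2) (by positivity : 0 < κ / 200))).and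
      ((tR.eventually (ev_pow (CA * (w : ℝ) ^ (1 / 100 : ℝ)) (by positivity : 0 < κ / 2))).and
      ((tR.eventually (ev_pow ((CA * (w : ℝ) ^ (-(1 / 100) : ℝ))⁻¹) hκ)).and
      ((tR.eventually (ev_ps C1 hcc hη1)).and
      ((tR.eventually (ev_ps (C1 * Cs1) hcc (by linarith : 0 < η1 - 13 * κ / 24))).and
      ((tR.eventually (ev_ps C2 hcc hη2)).and
      ((tR.eventually (ev_ps 1 hcc (by positivity : 0 < κ / 20))).and
      ((tendsto_natCast_atTop_atTop.eventually (ev_pow ((εD / 3 * cB)⁻¹) hηL)).and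
      (tR.eventually_ge_atTop R0Z)))))))))
  obtain ⟨rE, hE⟩ := eventually_atTop.1 ev
  refine ⟨h, cB * (h : ℝ) ^ 2 * (c1 * aA / (2 * Real.log w)), CA * (w : ℝ) ^ (1 / 100 : ℝ), cD, δG,
    fun r => Fm h w c r, hh1000, by positivity, hcD, hδG,
    1 + rB1 + rB2 + rL + rD + rH + rG + rA + rE, ?_⟩
  intro r hr
  have hr1 : 1 ≤ r := by omega
  have hr1' : (1 : ℝ) ≤ r := by exact_mod_cast hr1
  have hR1 : (1 : ℝ) ≤ (h * r : ℝ) := by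
    have : (1000 : ℝ) ≤ h := by exact_mod_cast hh1000
    exact one_le_mul_of_one_le_of_one_le (by linarith) hr1'
  obtain ⟨g1, g2, g3, g4, g5, g6, g7, g8, g9, g10⟩ := hE r (by omega)
  have hcel : ∀ x ∈ Fm h w c r, (∀ j, |(x j : ℝ) - (h * r : ℝ) * xs j| ≤ 100 * r) ∧
      ((PP5LB.DD x : ℤ) : ℝ) ≤ -(h * r : ℝ) ^ 4 := fun x hx =>
    ⟨(hCel h w r c x (by omega) hr1 hx).1, (hCel h w r c x (by omega) hr1 hx).2.1⟩
  have hfacts : ∀ x ∈ Fm h w c r, (∀ p : ℕ, p.Prime → ∃ j, ¬ (p : ℤ) ∣ x j) ∧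
        PP5L.FF x = 0 ∧ PP5LB.DD x < 0 ∧ (∀ j, |(x j : ℝ)| ≤ 3 * (h * r : ℝ)) ∧
        9 / 10 * (h * r : ℝ) ≤ |(x 0 : ℝ)| := by
    intro x hx
    obtain ⟨e1, e2⟩ := hcel x hx
    obtain ⟨e3, e4⟩ := cell_facts hh1000 hr1 e1
    refine ⟨uni_pr (fm_ff hx).2, (fm_ff hx).1, ?_, e3, e4⟩
    have h4 : 0 < (h * r : ℝ) ^ 4 := by positivity
    have h5 : ((PP5LB.DD x : ℤ) : ℝ) < 0 := by linarith
    exact_mod_cast h5
  refine ⟨hfacts, ?_⟩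
  -- the removed set
  obtain ⟨YG, hYG, hYGc, hG⟩ := hG r (by omega)
  obtain ⟨Θ, hΘ, hΘs⟩ := hH r (by omega)
  set F := Fm h w c r with hF
  set YB := F.filter (fun x => ¬ Gx r x) with hYB
  set YL := F.filter (fun x => ¬ Lm (h * r) δ x) with hYL
  set Y := (YB ∪ YL) ∪ YG with hY
  have hYsub : Y ⊆ F := by
    rw [hY]
    exact Finset.union_subset (Finset.union_subset (Finset.filter_subset _ _)
      (Finset.filter_subset _ _)) hYG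
  have hB1' := hB1 r (by omega)
  have hYcard : (Y.card : ℝ) ≤ εD * F.card := by
    have e1 : (YB.card : ℝ) ≤ εD / 3 * F.card := by
      refine (hB2 r (by omega)).trans ?_
      exact mul_le_mul_of_nonneg_right hwB (Nat.cast_nonneg _)
    have e2 : (YL.card : ℝ) ≤ εD / 3 * F.card := by
      refine (hL0 r (by omega)).trans ?_
      have hr0 : (0 : ℝ) < r := lt_of_lt_of_le one_pos hr1'
      have h1 : (r : ℝ) ^ (8 - ηL) = (r : ℝ) ^ 8 * ((r : ℝ) ^ ηL)⁻¹ := by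
        rw [Real.rpow_sub hr0, div_eq_mul_inv]
        norm_num
      rw [h1]
      have h2 : ((r : ℝ) ^ ηL)⁻¹ ≤ εD / 3 * cB := by
        rw [inv_le_comm₀ (Real.rpow_pos_of_pos hr0 _) (by positivity)]
        exact g9
      calc (r : ℝ) ^ 8 * ((r : ℝ) ^ ηL)⁻¹ ≤ (r : ℝ) ^ 8 * (εD / 3 * cB) :=
            mul_le_mul_of_nonneg_left h2 (pow_pos hr0 8).le
        _ = εD / 3 * (cB * (r : ℝ) ^ 8) := by ring
        _ ≤ εD / 3 * F.card :=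
            mul_le_mul_of_nonneg_left hB1' (div_nonneg hεD.le (by norm_num))
    have e3 : (YG.card : ℝ) ≤ εD / 3 * F.card :=
      hYGc.trans (mul_le_mul_of_nonneg_right hwG (Nat.cast_nonneg _))
    have e4 : (Y.card : ℝ) ≤ YB.card + YL.card + YG.card := by
      have h1 := (Finset.card_union_le (YB ∪ YL) YG).trans
        (Nat.add_le_add_right (Finset.card_union_le YB YL) _)
      rw [hY]
      exact_mod_cast h1
    linarith
  have hDs := hD r (by omega) Y hYsub hYcard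
  -- one `x`
  have hone : ∀ x ∈ F \ Y, ((Sd w (PP5LB.DD x) ⌊aA * (h * r : ℝ) ^ 2⌋₊).card : ℝ) ≤
      (Set.ncard (Zp (h * r) (CA * (w : ℝ) ^ (1 / 100 : ℝ)) cD δG x) : ℝ) +
      K0 * (w : ℝ) ^ (-(1 / 100) : ℝ) * (Θ x * (h * r : ℝ) ^ 2) +
      (c1 * aA / (8 * Real.log w)) * (h * r : ℝ) ^ 2 := by
    intro x hx
    rw [Finset.mem_sdiff] at hx
    obtain ⟨hxF, hxY⟩ := hx
    have hxB : Gx r x := by
      by_contra hcon
      exact hxY (Finset.mem_union_left _ (Finset.mem_union_left _ (Finset.mem_filter.2 ⟨hxF, hcon⟩)))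
    have hxL : Lm (h * r) δ x := by
      by_contra hcon
      exact hxY (Finset.mem_union_left _ (Finset.mem_union_right _ (Finset.mem_filter.2 ⟨hxF, hcon⟩)))
    have hxG : x ∉ YG := fun hcon => hxY (Finset.mem_union_right _ hcon)
    have hxS : Spl x := hC h w r c x (by omega) hc hr1 hxF hxB
    obtain ⟨q1, q2, q3, q4, q5⟩ := hfacts x hxF
    obtain ⟨nb1, nb2⟩ := nx_bds (c3 := c3) (δc := δc) (A := A) hCx hR1 hκ (by
      intro x T G l hGZ t V hV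
      have h1 := hZ (h * r) g10 x T G l hGZ t V hV
      refine ⟨fun Θ hΘ ht1 ht2 => ?_, h1.2⟩
      refine (h1.1 Θ hΘ ht1 ht2).trans ?_
      refine mul_le_mul_of_nonneg_right (le_max_left CZ 0) ?_
      have ht0 : 0 < t := lt_of_lt_of_le (Real.rpow_pos_of_pos (lt_of_lt_of_le one_pos hR1) _) ht1
      have := hΘ.nn x
      clear * - ht0 this hCx hR1
      positivity) hX (le_max_right CZ 0) q2 q1 (hcel x hxF).2 (by linarith) q4 hxB.rk hxL hδa hxS g1 g2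
    have hAx := hA r c x (by omega) hc hxF hxB hxL hxS nb2
    have hWκ : CA * (w : ℝ) ^ (1 / 100 : ℝ) ≤ (h * r : ℝ) ^ κ :=
      g3.trans (Real.rpow_le_rpow_of_exponent_le hR1 (by linarith))
    have hW1 : 1 ≤ CA * (w : ℝ) ^ (1 / 100 : ℝ) := by
      have := Real.one_le_rpow hw1 (by norm_num : (0 : ℝ) ≤ 1 / 100)
      exact one_le_mul_of_one_le_of_one_le hCA this
    have hGx := hG Θ hΘ x (Finset.mem_sdiff.2 ⟨hxF, hxG⟩) hxB (hxL.mono hR1 hδb)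
      (CA * (w : ℝ) ^ (1 / 100 : ℝ)) hW1 g3
    have hres := perx (η1 := η1) (η2 := η2) (δ := δG) (κ := κ) (cD := cD) (Th := Θ x) (C1 := C1) (C2 := C2)
      (w := w) (x := x) hCs hCs1 hs hs1 hCA hC1 hC2 hR1 (by omega) hκ (hΘ.nn x) hAx (by
        intro t ht1 ht2
        rw [hC1def]
        exact nb1 Θ hΘ t ht1 ht2) (by
        refine hGx.trans ?_
        rw [hC2def]
        refine mul_le_mul_of_nonneg_right (le_max_left CG 0) ?_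
        have := hΘ.nn x
        positivity) (fun P h1 h2 h3 p h4 h5 => hG0 h w r c x P hc hxF h1 h2 h3 p h4 h5) hWκ (by
        have hR00 : (0 : ℝ) < h * r := lt_of_lt_of_le one_pos hR1
        rw [Real.rpow_neg hR00.le]
        rw [inv_le_comm₀ (Real.rpow_pos_of_pos hR00 _)
          (mul_pos (lt_of_lt_of_le one_pos hCA) (Real.rpow_pos_of_pos hwpos _))]
        exact g4)
    rw [← hK0def] at hres
    have e6 : (2 : ℝ) - η1 + 13 * κ / 24 = 2 - (η1 - 13 * κ / 24) := by ring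
    rw [e6] at hres
    have e7 := stpf_e7 (c1 * aA) (Real.log w) ((h * r : ℝ) ^ 2)
    rw [e7]
    linarith
  have hsum := Finset.sum_le_sum hone
  rw [Finset.sum_add_distrib, Finset.sum_add_distrib, Finset.sum_const, nsmul_eq_mul,
    ← Finset.mul_sum, ← Finset.sum_mul] at hsum
  have hZs : ∑ x ∈ F \ Y, (Set.ncard (Zp (h * r) (CA * (w : ℝ) ^ (1 / 100 : ℝ)) cD δG x) : ℝ) ≤
      ∑ x ∈ F, (Set.ncard (Zp (h * r) (CA * (w : ℝ) ^ (1 / 100 : ℝ)) cD δG x) : ℝ) :=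
    Finset.sum_le_sum_of_subset_of_nonneg Finset.sdiff_subset fun _ _ _ => Nat.cast_nonneg _
  have hΘ2 : ∑ x ∈ F \ Y, Θ x ≤ max CH 0 * F.card := by
    refine (Finset.sum_le_sum_of_subset_of_nonneg Finset.sdiff_subset fun x _ _ => hΘ.nn x).trans ?_
    exact hΘs.trans (mul_le_mul_of_nonneg_right (le_max_left _ _) (Nat.cast_nonneg _))
  have hcard : ((F \ Y).card : ℝ) ≤ F.card := by
    exact_mod_cast Finset.card_le_card Finset.sdiff_subset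
  have hFpos : 0 ≤ (F.card : ℝ) := Nat.cast_nonneg _
  have hV0 : 0 < (w : ℝ) ^ (-(1 / 100) : ℝ) := Real.rpow_pos_of_pos hwpos _
  have hR2 : 0 < (h * r : ℝ) ^ 2 := by positivity
  have t1 : K0 * (w : ℝ) ^ (-(1 / 100) : ℝ) * ((∑ x ∈ F \ Y, Θ x) * (h * r : ℝ) ^ 2) ≤
      (c1 * aA / (4 * Real.log w)) * F.card * (h * r : ℝ) ^ 2 := by
    calc K0 * (w : ℝ) ^ (-(1 / 100) : ℝ) * ((∑ x ∈ F \ Y, Θ x) * (h * r : ℝ) ^ 2)
        ≤ K0 * (w : ℝ) ^ (-(1 / 100) : ℝ) * ((max CH 0 * F.card) * (h * r : ℝ) ^ 2) :=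
          mul_le_mul_of_nonneg_left (mul_le_mul_of_nonneg_right hΘ2 hR2.le) (mul_nonneg hK0 hV0.le)
      _ = (K0 * max CH 0 * (w : ℝ) ^ (-(1 / 100) : ℝ)) * (F.card * (h * r : ℝ) ^ 2) := by ring
      _ ≤ (c1 * aA / (4 * Real.log w)) * (F.card * (h * r : ℝ) ^ 2) :=
          mul_le_mul_of_nonneg_right hwK (mul_nonneg hFpos hR2.le)
      _ = _ := by ring
  have t2 : ((F \ Y).card : ℝ) * ((c1 * aA / (8 * Real.log w)) * (h * r : ℝ) ^ 2) ≤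
      F.card * ((c1 * aA / (8 * Real.log w)) * (h * r : ℝ) ^ 2) := by gcongr
  have t3 : c1 * F.card * (aA * (h * r : ℝ) ^ 2 / Real.log w) -
      (c1 * aA / (4 * Real.log w)) * F.card * (h * r : ℝ) ^ 2 -
      F.card * ((c1 * aA / (8 * Real.log w)) * (h * r : ℝ) ^ 2) ≥
      (c1 * aA / (2 * Real.log w)) * (F.card * (h * r : ℝ) ^ 2) := by
    exact stpf_t3 c1 aA (Real.log w) F.card (h * r : ℝ) (mul_nonneg
      (div_nonneg (mul_nonneg hc1.le ha0.le) hlog.le) (mul_nonneg hFpos hR2.le))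
  have t4 : cB * (h : ℝ) ^ 2 * (c1 * aA / (2 * Real.log w)) * (r : ℝ) ^ 10 ≤
      (c1 * aA / (2 * Real.log w)) * (F.card * (h * r : ℝ) ^ 2) := by
    calc cB * (h : ℝ) ^ 2 * (c1 * aA / (2 * Real.log w)) * (r : ℝ) ^ 10
        = (c1 * aA / (2 * Real.log w)) * ((cB * (r : ℝ) ^ 8) * (h * r : ℝ) ^ 2) := by ring
      _ ≤ _ := by gcongr
  linarith

end Pool.Agent.LB
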