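import Pool.Agent.LB.StPf

/-!
# LB/StPg: `StP` for all real `R` (helper12)
-/

set_option autoImplicit false

namespace Pool.Agent.LB

open Matrix Finset Pool.Agent.PP5B Filter Topology

open Classical in
theorem stP {δc A : ℝ} (hLoc : StLoc) (hCel : StCel) (hB1 : StB1) (hB2 : StB2) (hL0 : StL0)
    (hC : StC) (hD : StD) (hH : StH δc A) (hZ : StZ δc A) (hA : StA) (hG : StG δc A) (hG0 : StG0) :
    StP := by
  obtain ⟨h, c0, CV, cD, δ, F, hh, hc0, hcD, hδ, r0, hr0⟩ :=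
    sum_zp hLoc hCel hB1 hB2 hL0 hC hD hH hZ hA hG hG0
  have hhpos : (0 : ℝ) < h := by exact_mod_cast (by omega : 0 < h)
  have hh1 : (1000 : ℝ) ≤ h := by exact_mod_cast hh
  refine ⟨c0 / (2 * h) ^ 10, max CV 0, cD / 1024, δ / 2, max (10 * h) (h * (r0 + 1)),
    by positivity, by positivity, by positivity, ?_⟩
  intro R hR
  have hRa : 10 * (h : ℝ) ≤ R := (le_max_left _ _).trans hR
  have hRb : (h : ℝ) * (r0 + 1) ≤ R := (le_max_right _ _).trans hR
  have hR0 : 0 < R := by nlinarith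
  have hR4 : 4 ≤ R := by nlinarith
  obtain ⟨r, hrdef⟩ : ∃ r : ℕ, r = ⌊R / h⌋₊ := ⟨_, rfl⟩
  have hrle : (h * r : ℝ) ≤ R := by
    have h1 : (r : ℝ) ≤ R / h := by
      rw [hrdef]
      exact Nat.floor_le (by positivity)
    rw [le_div_iff₀ hhpos] at h1
    linarith
  have hrge : R < (h * r : ℝ) + h := by
    have h1 : R / h < (r : ℝ) + 1 := by
      rw [hrdef]
      exact Nat.lt_floor_add_one _
    rw [div_lt_iff₀ hhpos] at h1
    linarith
  have hrr0 : r0 ≤ r := by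
    rw [hrdef]
    apply Nat.le_floor
    rw [le_div_iff₀ hhpos]
    nlinarith
  obtain ⟨hfac, hsum⟩ := hr0 r hrr0
  have hRr : 9 / 10 * R ≤ (h * r : ℝ) := by linarith
  have hR1 : (1 : ℝ) ≤ (h * r : ℝ) := by linarith
  have hfinT : ∀ x : V10, (Zp (h * r) CV cD δ x).Finite := fun x => zp_finite _ _ _ _ _
  refine ⟨(F r).biUnion (fun x => ((hfinT x).toFinset).image (fun P => (x, P))), ?_, ?_⟩
  · have hcard : (((F r).biUnion (fun x => ((hfinT x).toFinset).image (fun P => (x, P)))).card : ℝ) =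
        ∑ x ∈ F r, (Set.ncard (Zp (h * r) CV cD δ x) : ℝ) := by
      rw [Finset.card_biUnion]
      · push_cast
        refine Finset.sum_congr rfl fun x _ => ?_
        rw [Finset.card_image_of_injective _ (Prod.mk_right_injective x),
          ← Set.ncard_eq_toFinset_card _ (hfinT x)]
      · intro x _ y _ hxy
        rw [Function.onFun, Finset.disjoint_left]
        rintro q hq1 hq2
        rw [Finset.mem_image] at hq1 hq2
        obtain ⟨P, _, rfl⟩ := hq1
        obtain ⟨P', _, he⟩ := hq2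
        exact hxy (congrArg Prod.fst he).symm
    rw [hcard]
    refine le_trans ?_ hsum
    have h1 : R / (2 * h) ≤ (r : ℝ) := by
      rw [div_le_iff₀ (by positivity)]
      linarith
    have h2 : (R / (2 * h)) ^ 10 ≤ (r : ℝ) ^ 10 := pow_le_pow_left₀ (by positivity) h1 10
    calc c0 / (2 * h) ^ 10 * R ^ 10 = c0 * (R / (2 * h)) ^ 10 := by
          rw [div_pow]
          ring
      _ ≤ c0 * (r : ℝ) ^ 10 := by gcongr
  · intro q hq
    rw [Finset.mem_biUnion] at hq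
    obtain ⟨x, hx, hq⟩ := hq
    rw [Finset.mem_image] at hq
    obtain ⟨P, hP, rfl⟩ := hq
    rw [Set.Finite.mem_toFinset] at hP
    obtain ⟨f1, f2, f3, f4, f5⟩ := hfac x hx
    obtain ⟨⟨z1, z2, z3⟩, z4⟩ := hP
    have p1 : (h * r : ℝ) ^ (5 / 2 : ℝ) ≤ R ^ (5 / 2 : ℝ) :=
      Real.rpow_le_rpow (by linarith) hrle (by norm_num)
    have p2 : R ^ (5 / 2 : ℝ) ≤ 1024 * (h * r : ℝ) ^ (5 / 2 : ℝ) := by
      have e1 : R ≤ 4 * (h * r : ℝ) := by linarith
      calc R ^ (5 / 2 : ℝ) ≤ (4 * (h * r : ℝ)) ^ (5 / 2 : ℝ) :=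
            Real.rpow_le_rpow hR0.le e1 (by norm_num)
        _ = 4 ^ (5 / 2 : ℝ) * (h * r : ℝ) ^ (5 / 2 : ℝ) := Real.mul_rpow (by norm_num) (by linarith)
        _ ≤ 1024 * (h * r : ℝ) ^ (5 / 2 : ℝ) := by
          apply mul_le_mul_of_nonneg_right _ (Real.rpow_nonneg (by linarith) _)
          calc (4 : ℝ) ^ (5 / 2 : ℝ) ≤ 4 ^ (5 : ℝ) :=
                Real.rpow_le_rpow_of_exponent_le (by norm_num) (by norm_num)
            _ = 1024 := by
              rw [show (5 : ℝ) = ((5 : ℕ) : ℝ) by norm_num, Real.rpow_natCast]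
              norm_num
    have p3 : R ^ 10 ≤ 1024 * (h * r : ℝ) ^ 10 := by
      have e1 : R ≤ 2 * (h * r : ℝ) := by linarith
      calc R ^ 10 ≤ (2 * (h * r : ℝ)) ^ 10 := pow_le_pow_left₀ hR0.le e1 10
        _ = 1024 * (h * r : ℝ) ^ 10 := by ring
    refine ⟨f1, f2, f3, fun j => (f4 j).trans (by linarith), by linarith, ⟨?_, ?_, ?_⟩, ?_⟩
    · refine ⟨z1.inE, z1.qd, z1.pr, fun a => (z1.le a).trans ?_⟩
      calc CV * (h * r : ℝ) ^ (5 / 2 : ℝ) ≤ max CV 0 * (h * r : ℝ) ^ (5 / 2 : ℝ) :=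
            mul_le_mul_of_nonneg_right (le_max_left _ _) (Real.rpow_nonneg (by linarith) _)
        _ ≤ max CV 0 * R ^ (5 / 2 : ℝ) := mul_le_mul_of_nonneg_left p1 (le_max_right _ _)
    · refine le_trans ?_ z2
      calc cD / 1024 * R ^ (5 / 2 : ℝ) ≤ cD / 1024 * (1024 * (h * r : ℝ) ^ (5 / 2 : ℝ)) := by gcongr
        _ = cD * (h * r : ℝ) ^ (5 / 2 : ℝ) := by ring
    · refine le_trans ?_ z3
      calc cD / 1024 * R ^ 10 ≤ cD / 1024 * (1024 * (h * r : ℝ) ^ 10) := by gcongr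
        _ = cD * (h * r : ℝ) ^ 10 := by ring
    · intro p hp hpR
      apply z4 p hp
      refine hpR.trans ?_
      calc R ^ (δ / 2) ≤ ((h * r : ℝ) ^ 2) ^ (δ / 2) := by
            apply Real.rpow_le_rpow hR0.le _ (by positivity)
            nlinarith
        _ = (h * r : ℝ) ^ δ := by
          rw [← Real.rpow_natCast, ← Real.rpow_mul (by linarith)]
          congr 1
          push_cast
          ring

end Pool.Agent.LB
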